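import Pool.Agent.EHD.Embed

/-!
# EHD (MP_7d1a15_lc): asymptotics of the iterated logarithm
-/

namespace Pool.Agent.EHD

open Filter Topology

/-- towers -/
def tw : ℕ → ℕ
  | 0 => 2
  | k + 1 => 2 ^ tw k

lemma tw_le_iter (j k n : ℕ) (hk : k ≤ j) (hn : tw j ≤ n) : tw (j - k) ≤ (Nat.log 2)^[k] n := by
  induction k with
  | zero => simpa using hn
  | succ k ih =>
    have h1 := ih (by omega)
    rw [Function.iterate_succ_apply']
    have h2 : j - k = (j - (k + 1)) + 1 := by omega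
    rw [h2, tw] at h1
    have hpos : (Nat.log 2)^[k] n ≠ 0 := by
      have : 0 < 2 ^ tw (j - (k + 1)) := by positivity
      omega
    exact Nat.le_log_of_pow_le (by norm_num) h1

lemma two_le_tw (j : ℕ) : 2 ≤ tw j := by
  induction j with
  | zero => simp [tw]
  | succ j ih =>
    rw [tw]
    calc 2 ≤ 2 ^ 2 := by norm_num
      _ ≤ 2 ^ tw j := Nat.pow_le_pow_right (by norm_num) ih

lemma lt_logStar (j n : ℕ) (hn : tw j ≤ n) : j < logStar n := by
  by_contra hcon
  have h1 := tw_le_iter j (logStar n) n (by omega) hn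
  have h2 := logStar_spec n
  have h3 := two_le_tw (j - logStar n)
  omega

lemma tendsto_logStar : Tendsto (fun n : ℕ => (logStar n : ℝ)) atTop atTop := by
  apply tendsto_natCast_atTop_atTop.comp
  rw [tendsto_atTop]
  intro b
  filter_upwards [eventually_ge_atTop (tw b)] with n hn
  exact (lt_logStar b n hn).le

lemma logStar_le (n : ℕ) : logStar n ≤ 2 + Nat.log 2 (Nat.log 2 n) := by
  apply Nat.sInf_le
  show (Nat.log 2)^[2 + Nat.log 2 (Nat.log 2 n)] n ≤ 1
  rw [add_comm, Function.iterate_add_apply]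
  have := iter_log_le (Nat.log 2 (Nat.log 2 n)) (Nat.log 2 (Nat.log 2 n))
  simpa using this

lemma log_sq_le (L : ℕ) (hL : L ≠ 0) : (Nat.log 2 L) ^ 2 ≤ 4 * L := by
  have h1 : 2 ^ Nat.log 2 L ≤ L := Nat.pow_log_le_self 2 hL
  have h2 : ∀ k : ℕ, k ^ 2 ≤ 4 * 2 ^ k := by
    intro k
    induction k with
    | zero => simp
    | succ k ih =>
      rcases Nat.lt_or_ge k 3 with h | h
      · interval_cases k <;> norm_num
      · have : 2 * k + 1 ≤ k ^ 2 := by nlinarith
        rw [pow_succ 2 k]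
        nlinarith
  have := h2 (Nat.log 2 L)
  omega

lemma natLog_le (n : ℕ) (hn : 1 ≤ n) : (Nat.log 2 n : ℝ) ≤ 2 * Real.log n := by
  have h1 : 2 ^ Nat.log 2 n ≤ n := Nat.pow_log_le_self 2 (by omega)
  have h2 : ((2 : ℝ) ^ Nat.log 2 n) ≤ n := by exact_mod_cast h1
  have h3 := Real.log_le_log (by positivity) h2
  rw [Real.log_pow] at h3
  have h4 : (1 : ℝ) / 2 ≤ Real.log 2 := by
    have := Real.log_two_gt_d9
    linarith
  have h5 : (0 : ℝ) ≤ Nat.log 2 n := Nat.cast_nonneg _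
  nlinarith

lemma le_natLog (n : ℕ) (hn : 1 ≤ n) : Real.log n ≤ (Nat.log 2 n : ℝ) + 1 := by
  have h1 : n < 2 ^ (Nat.log 2 n + 1) := Nat.lt_pow_succ_log_self (by norm_num) n
  have h2 : (n : ℝ) ≤ (2 : ℝ) ^ (Nat.log 2 n + 1) := by exact_mod_cast h1.le
  have h0 : (0 : ℝ) < n := by exact_mod_cast hn
  have h3 := Real.log_le_log h0 h2
  rw [Real.log_pow] at h3
  have h4 : Real.log 2 ≤ 1 := by
    have := Real.log_two_lt_d9
    linarith
  push_cast at h3
  have h5 : (0 : ℝ) ≤ (Nat.log 2 n : ℝ) + 1 := by positivity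
  nlinarith

/-- `log* n = o(log n)` -/
lemma logStar_div_log : Tendsto (fun n : ℕ => (logStar n : ℝ) / Real.log n) atTop (𝓝 0) := by
  rw [Metric.tendsto_atTop]
  intro ε hε
  -- it suffices that `log n` is large
  have hlog : Tendsto (fun n : ℕ => Real.log (n : ℝ)) atTop atTop :=
    Real.tendsto_log_atTop.comp tendsto_natCast_atTop_atTop
  obtain ⟨N, hN⟩ := (tendsto_atTop.1 hlog (max 2 (64 / ε ^ 2 + 4 / ε + 2))).exists_forall_of_atTop
  refine ⟨max N 4, fun n hn => ?_⟩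
  have hn1 : N ≤ n := le_trans (le_max_left _ _) hn
  have hn4 : 4 ≤ n := le_trans (le_max_right _ _) hn
  have h1 := hN n hn1
  have h2 : (2 : ℝ) ≤ Real.log n := le_trans (le_max_left _ _) h1
  have h3 : 64 / ε ^ 2 + 4 / ε + 2 ≤ Real.log n := le_trans (le_max_right _ _) h1
  have hL : (Nat.log 2 n : ℝ) ≤ 2 * Real.log n := natLog_le n (by omega)
  have hLpos : Nat.log 2 n ≠ 0 := by
    have : 1 ≤ Nat.log 2 n := Nat.le_log_of_pow_le (by norm_num) (by omega)
    omega
  have h4 : ((Nat.log 2 (Nat.log 2 n) : ℕ) : ℝ) ^ 2 ≤ 4 * (Nat.log 2 n : ℝ) := by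
    exact_mod_cast log_sq_le (Nat.log 2 n) hLpos
  have h5 : (logStar n : ℝ) ≤ 2 + (Nat.log 2 (Nat.log 2 n) : ℝ) := by
    exact_mod_cast logStar_le n
  rw [Real.dist_eq, sub_zero, abs_of_nonneg (by positivity)]
  rw [div_lt_iff₀ (by linarith)]
  set v := Real.log (n : ℝ)
  set w : ℝ := ((Nat.log 2 (Nat.log 2 n) : ℕ) : ℝ)
  have hw : w ^ 2 ≤ 8 * v := by linarith
  -- `2 < ε v / 2` and `w ≤ ε v / 2`
  have h6 : 2 < ε * v / 2 := by
    have : 4 / ε < v := by
      have : 0 < 64 / ε ^ 2 := by positivity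
      linarith
    rw [div_lt_iff₀ hε] at this
    linarith
  have h7 : w ≤ ε * v / 2 := by
    have h8 : 64 / ε ^ 2 ≤ v := by
      have : 0 < 4 / ε := by positivity
      linarith
    rw [div_le_iff₀ (by positivity)] at h8
    have hv : 0 < v := by linarith
    have h9 : w ^ 2 ≤ (ε * v / 2) ^ 2 := by
      have : 8 * v ≤ (ε * v / 2) ^ 2 := by nlinarith
      linarith
    exact abs_le_of_sq_le_sq' h9 (by positivity) |>.2
  linarith

end Pool.Agent.EHD
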