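import Mathlib

/-!
# EHD (MP_7d1a15_lc): the union bound
-/

namespace Pool.Agent.EHD

variable {W : Type} [Fintype W] [DecidableEq W]

/-- the functions which send every element of `E` to a value taken on `B` -/
noncomputable def badSet (N : ℕ) (E B : Finset W) : Finset (W → Fin N) := by
  classical
  exact Finset.univ.filter (fun h : W → Fin N => ∀ v ∈ E, ∃ b ∈ B, h v = h b)

lemma mem_badSet {N : ℕ} {E B : Finset W} {h : W → Fin N} :
    h ∈ badSet N E B ↔ ∀ v ∈ E, ∃ b ∈ B, h v = h b := by
  classical
  unfold badSet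
  simp

lemma card_badSet (N : ℕ) (E B : Finset W) (hEB : ∀ v ∈ E, v ∉ B) :
    (badSet N E B).card * N ^ E.card ≤ B.card ^ E.card * N ^ Fintype.card W := by
  classical
  have key : Fintype.card ({h : W → Fin N // ∀ v ∈ E, ∃ b ∈ B, h v = h b} ×
      ({v // v ∈ E} → Fin N)) ≤
      Fintype.card (({v // v ∈ E} → {b // b ∈ B}) × (W → Fin N)) := by
    apply Fintype.card_le_of_injective (fun p =>
      ((fun v => ⟨Classical.choose (p.1.2 v.1 v.2), (Classical.choose_spec (p.1.2 v.1 v.2)).1⟩),
        fun w => if hw : w ∈ E then p.2 ⟨w, hw⟩ else p.1.1 w))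
    rintro ⟨⟨h, hh⟩, g⟩ ⟨⟨h', hh'⟩, g'⟩ heq
    simp only [Prod.mk.injEq] at heq
    obtain ⟨h1, h2⟩ := heq
    have hg : g = g' := by
      funext v
      have := congrFun h2 v.1
      simpa [v.2] using this
    have hout : ∀ w, w ∉ E → h w = h' w := by
      intro w hw
      have := congrFun h2 w
      simpa [hw] using this
    have hin : h = h' := by
      funext w
      by_cases hw : w ∈ E
      · have e1 := Classical.choose_spec (hh w hw)
        have e2 := Classical.choose_spec (hh' w hw)
        have e3 : Classical.choose (hh w hw) = Classical.choose (hh' w hw) := by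
          have := congrFun h1 ⟨w, hw⟩
          simpa using this
        rw [e1.2, e2.2, ← e3]
        apply hout
        intro hcon
        exact hEB _ hcon e1.1
      · exact hout w hw
    subst hin hg
    rfl
  simp only [Fintype.card_prod, Fintype.card_fun, Fintype.card_fin, Fintype.card_coe] at key
  have e : Fintype.card {h : W → Fin N // ∀ v ∈ E, ∃ b ∈ B, h v = h b} = (badSet N E B).card := by
    rw [Fintype.card_subtype]
    unfold badSet
    congr
  rw [← e]
  exact key

/-- chains (newest element first) of length `k` -/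
def ch (G : List W → Finset W) : ℕ → Finset (List W)
  | 0 => {[]}
  | k + 1 => (ch G k).biUnion (fun V => (G V).image (fun v => v :: V))

lemma mem_ch_succ {G : List W → Finset W} {k : ℕ} {V : List W} {v : W} (hV : V ∈ ch G k)
    (hv : v ∈ G V) : v :: V ∈ ch G (k + 1) := by
  rw [ch, Finset.mem_biUnion]
  exact ⟨V, hV, Finset.mem_image.2 ⟨v, hv, rfl⟩⟩

lemma length_ch {G : List W → Finset W} {k : ℕ} {V : List W} (hV : V ∈ ch G k) :
    V.length = k := by
  induction k generalizing V with
  | zero =>
    rw [ch, Finset.mem_singleton] at hV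
    rw [hV]; rfl
  | succ k ih =>
    rw [ch, Finset.mem_biUnion] at hV
    obtain ⟨V', h1, h2⟩ := hV
    rw [Finset.mem_image] at h2
    obtain ⟨v, -, rfl⟩ := h2
    simp [ih h1]

lemma card_ch {G : List W → Finset W} {d : ℕ} (hG : ∀ V, (G V).card ≤ d) (k : ℕ) :
    (ch G k).card ≤ d ^ k := by
  induction k with
  | zero => simp [ch]
  | succ k ih =>
    rw [ch]
    calc ((ch G k).biUnion (fun V => (G V).image (fun v => v :: V))).card
        ≤ (ch G k).card * d := by
          apply Finset.card_biUnion_le_card_mul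
          intro V _
          exact Finset.card_image_le.trans (hG V)
      _ ≤ d ^ k * d := Nat.mul_le_mul_right _ ih
      _ = d ^ (k + 1) := by rw [pow_succ]

lemma exists_good {X : Type} [Fintype X] (B : X → Finset W) (G : X → List W → Finset W)
    (N d A U : ℕ) (hN : 0 < N) (hG : ∀ x V, (G x V).card ≤ d) (hB : ∀ x, (B x).card ≤ A)
    (hX : Fintype.card X * (d * A) ^ U < N ^ U) :
    ∃ h : W → Fin N, ∀ x, ∀ V ∈ ch (G x) U, V.Nodup → (∀ v ∈ V, v ∉ B x) →
      ∃ v ∈ V, ∀ b ∈ B x, h v ≠ h b := by
  classical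
  by_contra hcon
  push Not at hcon
  -- every function is bad
  let bx : X → Finset (W → Fin N) := fun x =>
    ((ch (G x) U).filter (fun V => V.Nodup ∧ ∀ v ∈ V, v ∉ B x)).biUnion
      (fun V => badSet N V.toFinset (B x))
  have hcov : (Finset.univ : Finset (W → Fin N)) ⊆ (Finset.univ : Finset X).biUnion bx := by
    intro h _
    obtain ⟨x, V, h1, h2, h3, h4⟩ := hcon h
    rw [Finset.mem_biUnion]
    refine ⟨x, Finset.mem_univ _, ?_⟩
    rw [Finset.mem_biUnion]
    refine ⟨V, Finset.mem_filter.2 ⟨h1, h2, h3⟩, ?_⟩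
    rw [mem_badSet]
    intro v hv
    exact h4 v (List.mem_toFinset.1 hv)
  have hb : ∀ x, (bx x).card * N ^ U ≤ (d * A) ^ U * N ^ Fintype.card W := by
    intro x
    have h1 : (bx x).card ≤ ∑ V ∈ (ch (G x) U).filter (fun V => V.Nodup ∧ ∀ v ∈ V, v ∉ B x),
        (badSet N V.toFinset (B x)).card := Finset.card_biUnion_le
    have h2 : ∀ V ∈ (ch (G x) U).filter (fun V => V.Nodup ∧ ∀ v ∈ V, v ∉ B x),
        (badSet N V.toFinset (B x)).card * N ^ U ≤ A ^ U * N ^ Fintype.card W := by
      intro V hV
      rw [Finset.mem_filter] at hV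
      obtain ⟨h3, h4, h5⟩ := hV
      have h6 := card_badSet N V.toFinset (B x) (fun v hv => h5 v (List.mem_toFinset.1 hv))
      have h7 : V.toFinset.card = U := by
        rw [List.toFinset_card_of_nodup h4, length_ch h3]
      rw [h7] at h6
      refine h6.trans ?_
      exact Nat.mul_le_mul_right _ (Nat.pow_le_pow_left (hB x) U)
    calc (bx x).card * N ^ U ≤ (∑ V ∈ (ch (G x) U).filter (fun V => V.Nodup ∧ ∀ v ∈ V, v ∉ B x),
        (badSet N V.toFinset (B x)).card) * N ^ U := Nat.mul_le_mul_right _ h1
      _ = ∑ V ∈ (ch (G x) U).filter (fun V => V.Nodup ∧ ∀ v ∈ V, v ∉ B x),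
        (badSet N V.toFinset (B x)).card * N ^ U := by rw [Finset.sum_mul]
      _ ≤ ((ch (G x) U).filter (fun V => V.Nodup ∧ ∀ v ∈ V, v ∉ B x)).card *
          (A ^ U * N ^ Fintype.card W) := by
          rw [← smul_eq_mul]
          exact Finset.sum_le_card_nsmul _ _ _ h2
      _ ≤ d ^ U * (A ^ U * N ^ Fintype.card W) := by
          apply Nat.mul_le_mul_right
          exact (Finset.card_filter_le _ _).trans (card_ch (hG x) U)
      _ = (d * A) ^ U * N ^ Fintype.card W := by rw [mul_pow]; ring
  have h8 : N ^ Fintype.card W * N ^ U ≤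
      (Fintype.card X * (d * A) ^ U) * N ^ Fintype.card W := by
    calc N ^ Fintype.card W * N ^ U = (Finset.univ : Finset (W → Fin N)).card * N ^ U := by
          rw [Finset.card_univ, Fintype.card_fun, Fintype.card_fin]
      _ ≤ ((Finset.univ : Finset X).biUnion bx).card * N ^ U :=
          Nat.mul_le_mul_right _ (Finset.card_le_card hcov)
      _ ≤ (∑ x : X, (bx x).card) * N ^ U := Nat.mul_le_mul_right _ Finset.card_biUnion_le
      _ = ∑ x : X, (bx x).card * N ^ U := by rw [Finset.sum_mul]
      _ ≤ ∑ _x : X, (d * A) ^ U * N ^ Fintype.card W := Finset.sum_le_sum fun x _ => hb x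
      _ = (Fintype.card X * (d * A) ^ U) * N ^ Fintype.card W := by
          rw [Finset.sum_const, Finset.card_univ, smul_eq_mul]; ring
  have h9 : 0 < N ^ Fintype.card W := by positivity
  have h10 : (Fintype.card X * (d * A) ^ U) * N ^ Fintype.card W
      < N ^ U * N ^ Fintype.card W := Nat.mul_lt_mul_of_pos_right hX h9
  have h11 : N ^ Fintype.card W * N ^ U = N ^ U * N ^ Fintype.card W := by ring
  omega

end Pool.Agent.EHD
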