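import Mathlib

/-!
# EHD (MP_7d1a15_lc): lists which differ in a small zone, and cutting a list at flags
-/

namespace Pool.Agent.EHD

/-- `l` and `l'` have a common beginning and a common end, between them at most `w` items. -/
def Near {α : Type*} (w : ℕ) (l l' : List α) : Prop :=
  ∃ A d d' B, l = A ++ (d ++ B) ∧ l' = A ++ (d' ++ B) ∧ d.length ≤ w ∧ d'.length ≤ w

lemma Near.mono {α : Type*} {w w' : ℕ} (h : w ≤ w') {l l' : List α} (hn : Near w l l') :
    Near w' l l' := by
  obtain ⟨A, d, d', B, h1, h2, h3, h4⟩ := hn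
  exact ⟨A, d, d', B, h1, h2, h3.trans h, h4.trans h⟩

lemma Near.map {α β : Type*} {w : ℕ} {l l' : List α} (hn : Near w l l') (f : α → β) :
    Near w (l.map f) (l'.map f) := by
  obtain ⟨A, d, d', B, rfl, rfl, h3, h4⟩ := hn
  exact ⟨A.map f, d.map f, d'.map f, B.map f, by simp, by simp, by simpa using h3,
    by simpa using h4⟩

/-- Cut a flagged list before every flag: the items before the first flag, and the blocks
(first item, other items). -/
def cut {α : Type*} : List (α × Bool) → List α × List (α × List α)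
  | [] => ([], [])
  | (a, true) :: l => ([], (a, (cut l).1) :: (cut l).2)
  | (a, false) :: l => (a :: (cut l).1, (cut l).2)

/-- number of flags -/
def nfl {α : Type*} (l : List (α × Bool)) : ℕ := (l.map Prod.snd).count true

@[simp] lemma nfl_nil {α : Type*} : nfl ([] : List (α × Bool)) = 0 := rfl

@[simp] lemma nfl_cons_true {α : Type*} (a : α) (l : List (α × Bool)) :
    nfl ((a, true) :: l) = nfl l + 1 := by simp [nfl]

@[simp] lemma nfl_cons_false {α : Type*} (a : α) (l : List (α × Bool)) :
    nfl ((a, false) :: l) = nfl l := by simp [nfl]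

lemma cut_content {α : Type*} (u : List (α × Bool)) :
    (cut u).1 ++ ((cut u).2.map (fun g => g.1 :: g.2)).flatten = u.map Prod.fst := by
  induction u with
  | nil => rfl
  | cons p l ih =>
    obtain ⟨a, b⟩ := p
    cases b <;> simp [cut, ← ih]

lemma length_cut {α : Type*} (u : List (α × Bool)) : (cut u).2.length = nfl u := by
  induction u with
  | nil => rfl
  | cons p l ih =>
    obtain ⟨a, b⟩ := p
    cases b <;> simp [cut, ih]

lemma cut_suffix {α : Type*} (X Y : List (α × Bool)) :
    ∃ Z, (cut (X ++ Y)).2 = Z ++ (cut Y).2 ∧ Z.length = nfl X := by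
  induction X with
  | nil => exact ⟨[], rfl, rfl⟩
  | cons p l ih =>
    obtain ⟨a, b⟩ := p
    obtain ⟨Z, hZ, hl⟩ := ih
    cases b
    · exact ⟨Z, by simp [cut, hZ], by simp [hl]⟩
    · exact ⟨(a, (cut (l ++ Y)).1) :: Z, by simp [cut, hZ], by simp [hl]⟩

lemma cut_fst_append {α : Type*} (P V : List (α × Bool)) (h : 0 < nfl P) :
    (cut (P ++ V)).1 = (cut P).1 := by
  induction P with
  | nil => simp at h
  | cons p l ih =>
    obtain ⟨a, b⟩ := p
    cases b
    · simp only [nfl_cons_false] at h
      simp [cut, ih h]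
    · simp [cut]

lemma cut_prefix {α : Type*} (P : List (α × Bool)) (h : 0 < nfl P) :
    ∃ Q, ∀ V, ∃ g, (cut (P ++ V)).2 = Q ++ g :: (cut V).2 := by
  induction P with
  | nil => simp at h
  | cons p l ih =>
    obtain ⟨a, b⟩ := p
    cases b
    · simp only [nfl_cons_false] at h
      obtain ⟨Q, hQ⟩ := ih h
      refine ⟨Q, fun V => ?_⟩
      obtain ⟨g, hg⟩ := hQ V
      exact ⟨g, by simp [cut, hg]⟩
    · rcases Nat.eq_zero_or_pos (nfl l) with h0 | h0
      · refine ⟨[], fun V => ⟨(a, (cut (l ++ V)).1), ?_⟩⟩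
        obtain ⟨Z, hZ, hl⟩ := cut_suffix l V
        rw [h0, List.length_eq_zero_iff] at hl
        subst hl
        simp [cut, hZ]
      · obtain ⟨Q, hQ⟩ := ih h0
        refine ⟨(a, (cut l).1) :: Q, fun V => ?_⟩
        obtain ⟨g, hg⟩ := hQ V
        exact ⟨g, by simp [cut, hg, cut_fst_append l V h0]⟩

/-- Cutting flagged lists with a common beginning and a common end. -/
lemma near_cut {α : Type*} (P e e' S : List (α × Bool)) (w : ℕ) (hP : P = [] ∨ 0 < nfl P)
    (he : nfl e + 1 ≤ w) (he' : nfl e' + 1 ≤ w) :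
    Near w (cut (P ++ (e ++ S))).2 (cut (P ++ (e' ++ S))).2 := by
  obtain ⟨Z, hZ, hl⟩ := cut_suffix e S
  obtain ⟨Z', hZ', hl'⟩ := cut_suffix e' S
  rcases hP with hP | hP
  · subst hP
    refine ⟨[], Z, Z', (cut S).2, by simpa using hZ, by simpa using hZ', by omega, by omega⟩
  · obtain ⟨Q, hQ⟩ := cut_prefix P hP
    obtain ⟨g, hg⟩ := hQ (e ++ S)
    obtain ⟨g', hg'⟩ := hQ (e' ++ S)
    refine ⟨Q, g :: Z, g' :: Z', (cut S).2, by rw [hg, hZ]; simp, by rw [hg', hZ']; simp,
      by simp; omega, by simp; omega⟩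

/-- A common beginning of length `p` and a common end of length `s`. -/
lemma split_common {α : Type*} (u u' : List α) (p s : ℕ) (hp : u.take p = u'.take p)
    (hs : u.drop (u.length - s) = u'.drop (u'.length - s)) (h : p + s ≤ u.length)
    (h' : p + s ≤ u'.length) :
    ∃ e e', u = u.take p ++ (e ++ u.drop (u.length - s)) ∧
      u' = u.take p ++ (e' ++ u.drop (u.length - s)) ∧
      e.length = u.length - (p + s) ∧ e'.length = u'.length - (p + s) := by
  have key : ∀ v : List α, p + s ≤ v.length →
      v = v.take p ++ ((v.drop p).take (v.length - (p + s)) ++ v.drop (v.length - s)) := by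
    intro v hv
    have h1 : v.drop (v.length - s) = (v.drop p).drop (v.length - (p + s)) := by
      rw [List.drop_drop]; congr 1; omega
    rw [h1, List.take_append_drop, List.take_append_drop]
  refine ⟨(u.drop p).take (u.length - (p + s)), (u'.drop p).take (u'.length - (p + s)),
    key u h, ?_, ?_, ?_⟩
  · rw [hp, hs]; exact key u' h'
  · simp; omega
  · simp; omega

end Pool.Agent.EHD
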