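import Pool.Agent.EHD.Hash

/-!
# EHD (MP_7d1a15_lc): the embedding
-/

namespace Pool.Agent.EHD

lemma hamming_append {m n : ℕ} (a a' : Fin m → Bool) (b b' : Fin n → Bool) :
    hammingDist (Fin.append a b) (Fin.append a' b') = hammingDist a a' + hammingDist b b' := by
  unfold hammingDist
  rw [Finset.card_filter, Finset.card_filter, Finset.card_filter, Fin.sum_univ_add]
  simp

lemma Near.symm {α : Type*} {w : ℕ} {l l' : List α} (h : Near w l l') : Near w l' l := by
  obtain ⟨A, d, d', B, h1, h2, h3, h4⟩ := h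
  exact ⟨A, d', d, B, h2, h1, h4, h3⟩

lemma near_card {α : Type*} [DecidableEq α] {w : ℕ} {l l' : List α} (h : Near w l l') :
    (l.toFinset \ l'.toFinset).card ≤ w := by
  obtain ⟨A, d, d', B, rfl, rfl, h3, -⟩ := h
  refine le_trans (Finset.card_le_card (t := d.toFinset) ?_) ((List.toFinset_card_le d).trans h3)
  intro v hv
  rw [Finset.mem_sdiff, List.mem_toFinset, List.mem_toFinset] at hv
  rw [List.mem_toFinset]
  obtain ⟨h1, h2⟩ := hv
  simp only [List.mem_append, not_or] at h1 h2
  tauto

lemma card_rec_sdiff (n t : ℕ) {x y : List Bool} (h : Near 1 (P0 x) (P0 y)) :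
    (recs n t x \ recs n t y).card ≤ (rd n + 8) * Jm n t := by
  have h1 : recs n t x \ recs n t y ⊆ (Finset.range (Jm n t)).biUnion
      (fun J => (L (rd n) ((J + 1) * t) x).toFinset \ (L (rd n) ((J + 1) * t) y).toFinset) := by
    intro v hv
    rw [Finset.mem_sdiff] at hv
    obtain ⟨h1, h2⟩ := hv
    obtain ⟨J, hJ, hJ2⟩ := mem_rec.1 h1
    rw [Finset.mem_biUnion]
    refine ⟨J, Finset.mem_range.2 hJ, ?_⟩
    rw [Finset.mem_sdiff, List.mem_toFinset, List.mem_toFinset]
    exact ⟨hJ2, fun hcon => h2 (mem_rec.2 ⟨J, hJ, hcon⟩)⟩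
  refine (Finset.card_le_card h1).trans ?_
  refine (Finset.card_biUnion_le_card_mul _ _ (rd n + 8) ?_).trans ?_
  · intro J _
    exact near_card (near_L (rd n) _ (h.mono (by omega)))
  · rw [Finset.card_range, mul_comm]

lemma hamming_image {N : ℕ} (h : List Bool → Fin N) (A A' : Finset (List Bool)) (k : ℕ)
    (h1 : (A \ A').card ≤ k) (h2 : (A' \ A).card ≤ k) :
    hammingDist (fun i : Fin N => decide (i ∈ A.image h)) (fun i => decide (i ∈ A'.image h))
      ≤ 2 * k := by
  unfold hammingDist
  have h3 : (Finset.univ.filter (fun i : Fin N => decide (i ∈ A.image h) ≠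
      decide (i ∈ A'.image h))) ⊆ (A \ A').image h ∪ (A' \ A).image h := by
    intro i hi
    rw [Finset.mem_filter] at hi
    have hi2 := hi.2
    rw [Finset.mem_union]
    by_cases e1 : i ∈ A.image h
    · by_cases e2 : i ∈ A'.image h
      · simp [e1, e2] at hi2
      · left
        obtain ⟨v, hv, rfl⟩ := Finset.mem_image.1 e1
        apply Finset.mem_image_of_mem
        rw [Finset.mem_sdiff]
        exact ⟨hv, fun hcon => e2 (Finset.mem_image_of_mem _ hcon)⟩
    · by_cases e2 : i ∈ A'.image h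
      · right
        obtain ⟨v, hv, rfl⟩ := Finset.mem_image.1 e2
        apply Finset.mem_image_of_mem
        rw [Finset.mem_sdiff]
        exact ⟨hv, fun hcon => e1 (Finset.mem_image_of_mem _ hcon)⟩
      · simp [e1, e2] at hi2
  refine (Finset.card_le_card h3).trans ((Finset.card_union_le _ _).trans ?_)
  have h4 : ((A \ A').image h).card ≤ k := Finset.card_image_le.trans h1
  have h5 : ((A' \ A).image h).card ≤ k := Finset.card_image_le.trans h2
  omega

lemma hamming_single {Q : ℕ} (c c' : Fin Q) :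
    hammingDist (fun i : Fin Q => decide (i = c)) (fun i => decide (i = c')) ≤ 2 := by
  unfold hammingDist
  have h3 : (Finset.univ.filter (fun i : Fin Q => decide (i = c) ≠ decide (i = c'))) ⊆
      {c, c'} := by
    intro i hi
    rw [Finset.mem_filter] at hi
    have hi2 := hi.2
    rw [Finset.mem_insert, Finset.mem_singleton]
    by_contra hcon
    rw [not_or] at hcon
    simp [hcon.1, hcon.2] at hi2
  exact (Finset.card_le_card h3).trans Finset.card_le_two

theorem exists_embedding (n t : ℕ) (hn : 2 ≤ n) (ht : 1 ≤ t) :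
    ∃ f : List Bool → (Fin (NN n t + n ^ 4) → Bool),
      (∀ x y : List Bool, x ≠ [] → x.length ≤ n → y ≠ [] → y.length ≤ n → f x = f y → x = y) ∧
      (∀ x y : List Bool, Near 1 (P0 x) (P0 y) →
        hammingDist (f x) (f y) ≤ 2 * ((rd n + 8) * Jm n t) + 2) := by
  classical
  obtain ⟨h, hS⟩ := exists_names n t hn ht
  let T : Finset (List Bool) := (List.finite_length_le Bool n).toFinset.filter (fun x => x ≠ [])
  have hT : ∀ x, x ∈ T ↔ x.length ≤ n ∧ x ≠ [] := by
    intro x
    simp [T]
  let F : List Bool → Finset (Fin (NN n t)) := fun x => (recs n t x).image h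
  let fib : Finset (Fin (NN n t)) → Finset (List Bool) := fun s => T.filter (fun y => F y = s)
  have hidx : ∀ x, x ≠ [] → x.length ≤ n → (fib (F x)).toList.idxOf x < n ^ 4 := by
    intro x hx hxn
    obtain ⟨S, hS1, hS2⟩ := hS x hxn
    have h1 : x ∈ fib (F x) := Finset.mem_filter.2 ⟨(hT x).2 ⟨hxn, hx⟩, rfl⟩
    have h2 : (fib (F x)).toList.idxOf x < (fib (F x)).toList.length :=
      List.idxOf_lt_length_of_mem (Finset.mem_toList.2 h1)
    rw [Finset.length_toList] at h2
    have h3 : (fib (F x)).card ≤ S.card := by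
      apply Finset.card_le_card
      intro y hy
      obtain ⟨hy1, hy2⟩ := Finset.mem_filter.1 hy
      obtain ⟨hy3, hy4⟩ := (hT y).1 hy1
      exact hS2 y hy4 hy3 hy2
    omega
  have hn4 : 0 < n ^ 4 := by positivity
  let col : List Bool → Fin (n ^ 4) := fun x =>
    if hx : (fib (F x)).toList.idxOf x < n ^ 4 then ⟨(fib (F x)).toList.idxOf x, hx⟩ else ⟨0, hn4⟩
  refine ⟨fun x => Fin.append (fun i => decide (i ∈ (recs n t x).image h))
    (fun i => decide (i = col x)), ?_, ?_⟩
  · intro x y hx hxn hy hyn hf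
    have hF : F x = F y := by
      ext i
      have h1 := congrFun hf (Fin.castAdd _ i)
      simp only [Fin.append_left] at h1
      exact decide_eq_decide.1 h1
    have hc : col x = col y := by
      have h1 := congrFun hf (Fin.natAdd _ (col x))
      simpa only [Fin.append_right, decide_true, eq_comm (a := true), decide_eq_true_eq] using h1
    have h1 : (fib (F x)).toList.idxOf x = (fib (F x)).toList.idxOf y := by
      have e1 := hidx x hx hxn
      have e2 := hidx y hy hyn
      simp only [col, e1, e2, dite_true, Fin.mk.injEq] at hc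
      rw [hc, hF]
    have h2 : x ∈ (fib (F x)).toList :=
      Finset.mem_toList.2 (Finset.mem_filter.2 ⟨(hT x).2 ⟨hxn, hx⟩, rfl⟩)
    exact (List.idxOf_inj h2).1 h1
  · intro x y hxy
    show hammingDist (Fin.append _ _) (Fin.append _ _) ≤ _
    rw [hamming_append]
    have h1 := hamming_image h (recs n t x) (recs n t y) _ (card_rec_sdiff n t hxy)
      (card_rec_sdiff n t hxy.symm)
    have h2 := hamming_single (col x) (col y)
    exact Nat.add_le_add h1 h2

theorem main_tradeoff (n t : ℕ) (hn : 2 ≤ n) (ht : 1 ≤ t) :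
    ∃ m ≤ n ^ (12 * 11 ^ t), ∃ f : List Bool → (Fin m → Bool),
      (∀ x y : List Bool, x ≠ [] → x.length ≤ n → y ≠ [] → y.length ≤ n → f x = f y → x = y) ∧
      (∀ x y : List Bool, Near 1 (P0 x) (P0 y) →
        hammingDist (f x) (f y) ≤ 26 * logStar n * (Nat.log 2 n / t + 1)) := by
  obtain ⟨f, h1, h2⟩ := exists_embedding n t hn ht
  refine ⟨_, ?_, f, h1, ?_⟩
  · have e1 : 1 ≤ 11 ^ t := Nat.one_le_pow _ _ (by norm_num)
    have e2 : 2 * n ^ (11 ^ t * 7 + 3) ≤ n ^ (11 ^ t * 7 + 4) := by
      have : n ^ (11 ^ t * 7 + 4) = n * n ^ (11 ^ t * 7 + 3) := by ring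
      rw [this]
      exact Nat.mul_le_mul_right _ hn
    have e3 : n ^ 4 ≤ n ^ (11 ^ t * 7 + 4) := Nat.pow_le_pow_right (by omega) (by omega)
    have e4 : 2 * n ^ (11 ^ t * 7 + 4) ≤ n ^ (11 ^ t * 7 + 5) := by
      have : n ^ (11 ^ t * 7 + 5) = n * n ^ (11 ^ t * 7 + 4) := by ring
      rw [this]
      exact Nat.mul_le_mul_right _ hn
    have e5 : n ^ (11 ^ t * 7 + 5) ≤ n ^ (12 * 11 ^ t) := Nat.pow_le_pow_right (by omega) (by omega)
    unfold NN
    omega
  · intro x y hxy
    refine (h2 x y hxy).trans ?_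
    have e1 := one_le_logStar hn
    unfold rd Jm
    set k := Nat.log 2 n / t + 1 with hk
    have e2 : 1 ≤ k := Nat.le_add_left 1 _
    have e3 : (logStar n + 3 + 8) * k ≤ (12 * logStar n) * k := Nat.mul_le_mul_right _ (by omega)
    have e4 : 1 ≤ logStar n * k := Nat.mul_pos e1 e2
    have e5 : 26 * logStar n * k = 2 * (12 * logStar n * k) + 2 * (logStar n * k) := by ring
    omega

end Pool.Agent.EHD
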