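import Pool.Agent.EHD.Levels
import Pool.Agent.EHD.Count

/-!
# EHD (MP_7d1a15_lc): the recorded strings and their random names
-/

namespace Pool.Agent.EHD

/-- number of recorded levels -/
def Jm (n t : ℕ) : ℕ := Nat.log 2 n / t + 1

/-- the recorded strings: the symbols of the levels `t`, `2t`, … -/
noncomputable def recs (n t : ℕ) (x : List Bool) : Finset (List Bool) :=
  (Finset.range (Jm n t)).biUnion (fun J => (L (rd n) ((J + 1) * t) x).toFinset)

/-- with the letters -/
noncomputable def base (n t : ℕ) (x : List Bool) : Finset (List Bool) :=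
  recs n t x ∪ {[true], [false]}

lemma mem_rec {n t : ℕ} {x v : List Bool} :
    v ∈ recs n t x ↔ ∃ J < Jm n t, v ∈ L (rd n) ((J + 1) * t) x := by
  unfold recs
  rw [Finset.mem_biUnion]
  constructor
  · rintro ⟨J, h1, h2⟩
    exact ⟨J, Finset.mem_range.1 h1, List.mem_toFinset.1 h2⟩
  · rintro ⟨J, h1, h2⟩
    exact ⟨J, Finset.mem_range.2 h1, List.mem_toFinset.2 h2⟩

lemma mem_rec_length {n t : ℕ} {x v : List Bool} (hv : v ∈ recs n t x) : v.length ≤ x.length := by
  obtain ⟨J, -, h⟩ := mem_rec.1 hv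
  exact mem_L_length h

lemma log_lt_self' {n : ℕ} (hn : 2 ≤ n) : Nat.log 2 n + 1 ≤ n := by
  have := Nat.log_lt_self 2 (x := n) (by omega)
  omega

lemma Jm_le {n t : ℕ} (hn : 2 ≤ n) : Jm n t ≤ n := by
  unfold Jm
  have h1 := log_lt_self' hn
  have h2 : Nat.log 2 n / t ≤ Nat.log 2 n := Nat.div_le_self _ _
  omega

lemma card_rec {n t : ℕ} (hn : 2 ≤ n) {x : List Bool} (hx : x.length ≤ n) :
    (recs n t x).card ≤ n * n := by
  unfold recs
  refine (Finset.card_biUnion_le_card_mul _ _ n ?_).trans ?_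
  · intro J _
    exact (List.toFinset_card_le _).trans ((length_L_le _ _ _).trans hx)
  · rw [Finset.card_range]
    exact Nat.mul_le_mul_right _ (Jm_le hn)

lemma card_base {n t : ℕ} (hn : 2 ≤ n) {x : List Bool} (hx : x.length ≤ n) :
    (base n t x).card ≤ n * n + 2 := by
  unfold base
  refine (Finset.card_union_le _ _).trans ?_
  have h1 := card_rec (t := t) hn hx
  have h2 : ({[true], [false]} : Finset (List Bool)).card ≤ 2 := Finset.card_le_two
  omega

lemma letters_base {n t : ℕ} {x y u : List Bool} (hu : u ∈ L (rd n) 0 y) : u ∈ base n t x := by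
  unfold base
  rw [Finset.mem_union]
  right
  simp only [L, Function.iterate_zero, id, P0, List.mem_map] at hu
  obtain ⟨b, -, rfl⟩ := hu
  cases b <;> simp

lemma top_mem {n t : ℕ} (ht : 1 ≤ t) {y : List Bool} (hy : y ≠ []) (hyn : y.length ≤ n) :
    y ∈ L (rd n) (Jm n t * t) y := by
  rw [L_top _ _ _ hy]
  · exact List.mem_singleton.2 rfl
  · have h1 : n < 2 ^ (Nat.log 2 n + 1) := Nat.lt_pow_succ_log_self (by norm_num) n
    have h2 : Nat.log 2 n + 1 ≤ Jm n t * t := by
      unfold Jm
      have h3 := Nat.div_add_mod (Nat.log 2 n) t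
      have h4 := Nat.mod_lt (Nat.log 2 n) (by omega : t > 0)
      have h5 : (Nat.log 2 n / t + 1) * t = t * (Nat.log 2 n / t) + t := by ring
      omega
    have h3 : 2 ^ (Nat.log 2 n + 1) ≤ 2 ^ (Jm n t * t) := Nat.pow_le_pow_right (by norm_num) h2
    omega

lemma card_strings (n : ℕ) [Fintype {x : List Bool // x.length ≤ n}] :
    Fintype.card {x : List Bool // x.length ≤ n} ≤ 2 ^ (n + 1) := by
  have h := Fintype.card_le_of_injective
    (fun w : {x : List Bool // x.length ≤ n} => (⟨code w.1, (code_lt w.1).trans_le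
      (Nat.pow_le_pow_right (by norm_num) (by have := w.2; omega))⟩ : Fin (2 ^ (n + 1))))
    (by
      intro a b hab
      have : code a.1 = code b.1 := by simpa using hab
      exact Subtype.ext (code_inj this))
  simpa using h

/-- size of the set of names -/
def NN (n t : ℕ) : ℕ := 2 * n ^ (11 ^ t * 7 + 3)

theorem exists_names (n t : ℕ) (hn : 2 ≤ n) (ht : 1 ≤ t) :
    ∃ h : List Bool → Fin (NN n t), ∀ x : List Bool, x.length ≤ n →
      ∃ S : Finset (List Bool), S.card ≤ n ^ 4 ∧
        ∀ y : List Bool, y ≠ [] → y.length ≤ n →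
          (recs n t y).image h = (recs n t x).image h → y ∈ S := by
  classical
  let W : Type := {x : List Bool // x.length ≤ n}
  haveI : Finite W := List.finite_length_le Bool n
  letI : Fintype W := Fintype.ofFinite W
  have hn0 : 0 < n := by omega
  have hNN : 0 < NN n t := by unfold NN; positivity
  -- descriptions over the known strings
  let ptr : W → List W → ℕ → Sym := fun x V i =>
    ((base n t x.1).toList ++ V.map Subtype.val).getD i []
  let B : W → Finset W := fun x => Finset.univ.filter (fun w : W => w.1 ∈ base n t x.1)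
  let G : W → List W → Finset W := fun x V => Finset.univ.filter
    (fun w : W => ∃ T : IT n (n ^ 4) t, ev n (n ^ 4) (ptr x V) t T = w.1)
  have hG : ∀ x V, (G x V).card ≤ n ^ (11 ^ t * 7) := by
    intro x V
    have h1 : (G x V).card ≤ ((Finset.univ : Finset (IT n (n ^ 4) t)).image
        (fun T => ev n (n ^ 4) (ptr x V) t T)).card := by
      rw [← Finset.card_image_of_injective (G x V) Subtype.val_injective]
      apply Finset.card_le_card
      intro w hw
      rw [Finset.mem_image] at hw ⊢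
      obtain ⟨w', hw', rfl⟩ := hw
      obtain ⟨T, hT⟩ := (Finset.mem_filter.1 hw').2
      exact ⟨T, Finset.mem_univ _, hT⟩
    refine h1.trans (Finset.card_image_le.trans ?_)
    rw [Finset.card_univ]
    exact card_IT n (n ^ 4) 4 t hn le_rfl
  have hB : ∀ x, (B x).card ≤ n ^ 3 := by
    intro x
    have h1 : (B x).card ≤ (base n t x.1).card := by
      rw [← Finset.card_image_of_injective (B x) Subtype.val_injective]
      apply Finset.card_le_card
      intro w hw
      rw [Finset.mem_image] at hw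
      obtain ⟨w', hw', rfl⟩ := hw
      exact (Finset.mem_filter.1 hw').2
    have h2 := card_base (t := t) hn x.2
    have h3 : n * n + 2 ≤ n ^ 3 := by nlinarith [mul_self_nonneg n, hn]
    omega
  have hX : Fintype.card W * (n ^ (11 ^ t * 7) * n ^ 3) ^ (n + 2) < (NN n t) ^ (n + 2) := by
    have h1 : Fintype.card W ≤ 2 ^ (n + 1) := card_strings n
    have h2 : NN n t = 2 * (n ^ (11 ^ t * 7) * n ^ 3) := by unfold NN; rw [pow_add]
    rw [h2, mul_pow 2]
    apply Nat.mul_lt_mul_of_pos_right
    · refine h1.trans_lt ?_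
      exact Nat.pow_lt_pow_right (by norm_num) (by omega)
    · positivity
  obtain ⟨h0, hh0⟩ := exists_good B G (NN n t) (n ^ (11 ^ t * 7)) (n ^ 3) (n + 2) hNN hG hB hX
  refine ⟨fun v => if hv : v.length ≤ n then h0 ⟨v, hv⟩ else ⟨0, hNN⟩, ?_⟩
  set h : List Bool → Fin (NN n t) := fun v => if hv : v.length ≤ n then h0 ⟨v, hv⟩ else ⟨0, hNN⟩
    with hh
  have hval : ∀ w : W, h w.1 = h0 w := fun w => dif_pos w.2
  intro x hx
  let x' : W := ⟨x, hx⟩
  let Q : ℕ → Prop := fun k => ∃ V ∈ ch (G x') k, V.Nodup ∧ (∀ v ∈ V, v ∉ B x') ∧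
    ∀ v ∈ V, ∃ b ∈ B x', h0 v = h0 b
  have hQ0 : Q 0 := ⟨[], by simp [ch], List.nodup_nil, by simp, by simp⟩
  have hQU : ¬ Q (n + 2) := by
    rintro ⟨V, h1, h2, h3, h4⟩
    obtain ⟨v, hv, hv2⟩ := hh0 x' V h1 h2 h3
    obtain ⟨b, hb, hb2⟩ := h4 v hv
    exact hv2 b hb hb2
  have hex : ∃ k, ¬ Q k := ⟨n + 2, hQU⟩
  obtain ⟨k, hk1, hk2, hk3⟩ : ∃ k, Q k ∧ ¬ Q (k + 1) ∧ k + 1 ≤ n + 2 := by
    have h1 := Nat.find_spec hex
    have h2 : Nat.find hex ≤ n + 2 := Nat.find_min' hex hQU
    have h3 : Nat.find hex ≠ 0 := by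
      intro h4
      rw [h4] at h1
      exact h1 hQ0
    obtain ⟨k, hk⟩ := Nat.exists_eq_succ_of_ne_zero h3
    refine ⟨k, ?_, ?_, ?_⟩
    · have := Nat.find_min hex (m := k) (by omega)
      exact not_not.1 this
    · rw [hk] at h1; exact h1
    · rw [hk] at h2; exact h2
  obtain ⟨V, hV1, hV2, hV3, hV4⟩ := hk1
  have hVl : V.length = k := length_ch hV1
  refine ⟨base n t x ∪ (V.map Subtype.val).toFinset, ?_, ?_⟩
  · refine (Finset.card_union_le _ _).trans ?_
    have h1 := card_base (t := t) hn hx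
    have h2 : (V.map Subtype.val).toFinset.card ≤ k := by
      refine (List.toFinset_card_le _).trans ?_
      rw [List.length_map, hVl]
    have h3 : n * n + 2 + (n + 1) ≤ n ^ 4 := by
      have h4 : 4 * (n * n) ≤ n ^ 4 := by
        have : n ^ 4 = (n * n) * (n * n) := by ring
        rw [this]
        apply Nat.mul_le_mul_right
        nlinarith
      nlinarith
    omega
  intro y hy hyn hF
  by_contra hyS
  -- a new string of the family of `y`
  have hexJ : ∃ J, ∃ v ∈ L (rd n) (J * t) y, v ∉ base n t x ∪ (V.map Subtype.val).toFinset :=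
    ⟨Jm n t, y, top_mem ht hy hyn, hyS⟩
  have hJ1 := Nat.find_spec hexJ
  have hJ2 : Nat.find hexJ ≤ Jm n t := Nat.find_min' hexJ ⟨y, top_mem ht hy hyn, hyS⟩
  have hJ3 : Nat.find hexJ ≠ 0 := by
    intro h1
    rw [h1, Nat.zero_mul] at hJ1
    obtain ⟨v, hv, hv2⟩ := hJ1
    exact hv2 (Finset.mem_union_left _ (letters_base hv))
  obtain ⟨J, hJ⟩ := Nat.exists_eq_succ_of_ne_zero hJ3
  have hJ4 : ∀ u ∈ L (rd n) (J * t) y, u ∈ base n t x ∪ (V.map Subtype.val).toFinset := by
    have := Nat.find_min hexJ (m := J) (by omega)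
    push Not at this
    exact this
  rw [hJ, Nat.succ_eq_add_one] at hJ1 hJ2
  obtain ⟨v, hv, hvS⟩ := hJ1
  have hvlen : v.length ≤ n := (mem_L_length hv).trans hyn
  have hvrec : v ∈ recs n t y := mem_rec.2 ⟨J, by omega, hv⟩
  -- its description
  have hD : D n t {u | u ∈ L (rd n) (J * t) y} v := by
    apply L_D n (J * t) t hyn
    have : J * t + t = (J + 1) * t := by ring
    rw [this]
    exact hv
  have hD2 : D n t {u | u ∈ base n t x ∪ (V.map Subtype.val).toFinset} v :=
    D_mono n t (fun u hu => hJ4 u hu) hD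
  have hvG : (⟨v, hvlen⟩ : W) ∈ G x' V := by
    refine Finset.mem_filter.2 ⟨Finset.mem_univ _, ?_⟩
    apply exists_IT n (n ^ 4) (ptr x' V) _ _ t v hD2
    intro u hu
    have hu1 : u ∈ (base n t x).toList ++ V.map Subtype.val := by
      rcases Finset.mem_union.1 hu with h1 | h1
      · exact List.mem_append_left _ (Finset.mem_toList.2 h1)
      · exact List.mem_append_right _ (List.mem_toFinset.1 h1)
    obtain ⟨i, hi, hi2⟩ := List.mem_iff_getElem.1 hu1
    refine ⟨i, ?_, ?_⟩
    · rw [List.length_append, Finset.length_toList, List.length_map, hVl] at hi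
      have h1 := card_base (t := t) hn hx
      have h3 : n * n + 2 + (n + 1) ≤ n ^ 4 := by
        have h4 : 4 * (n * n) ≤ n ^ 4 := by
          have : n ^ 4 = (n * n) * (n * n) := by ring
          rw [this]
          apply Nat.mul_le_mul_right
          nlinarith
        nlinarith
      omega
    · show ((base n t x).toList ++ V.map Subtype.val).getD i [] = u
      rw [List.getD_eq_getElem _ _ hi, hi2]
  apply hk2
  refine ⟨⟨v, hvlen⟩ :: V, mem_ch_succ hV1 hvG, ?_, ?_, ?_⟩
  · rw [List.nodup_cons]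
    refine ⟨?_, hV2⟩
    intro hcon
    apply hvS
    apply Finset.mem_union_right
    rw [List.mem_toFinset, List.mem_map]
    exact ⟨_, hcon, rfl⟩
  · intro w hw
    rcases List.mem_cons.1 hw with rfl | hw
    · intro hcon
      apply hvS
      exact Finset.mem_union_left _ (Finset.mem_filter.1 hcon).2
    · exact hV3 w hw
  · intro w hw
    rcases List.mem_cons.1 hw with rfl | hw
    · have h1 : h v ∈ (recs n t x).image h := by
        rw [← hF]
        exact Finset.mem_image_of_mem _ hvrec
      obtain ⟨b, hb, hb2⟩ := Finset.mem_image.1 h1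
      have hbl : b.length ≤ n := (mem_rec_length hb).trans hx
      refine ⟨⟨b, hbl⟩, ?_, ?_⟩
      · exact Finset.mem_filter.2 ⟨Finset.mem_univ _, Finset.mem_union_left _ hb⟩
      · rw [← hval ⟨v, hvlen⟩, ← hval ⟨b, hbl⟩]
        exact hb2.symm
    · exact hV4 w hw

end Pool.Agent.EHD
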