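import Pool.Agent.EHD.Toss

/-!
# EHD (MP_7d1a15_lc): one level of the parse
-/

namespace Pool.Agent.EHD

abbrev Sym := List Bool

/-- a string as a number -/
def code : Sym → ℕ
  | [] => 1
  | b :: s => 2 * code s + b.toNat

lemma code_pos (s : Sym) : 0 < code s := by
  induction s with
  | nil => simp [code]
  | cons b s ih => simp only [code]; omega

lemma code_inj : Function.Injective code := by
  intro s
  induction s with
  | nil =>
    intro t h
    cases t with
    | nil => rfl
    | cons b t =>
      have := code_pos t
      simp only [code] at h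
      omega
  | cons a s ih =>
    intro t h
    cases t with
    | nil =>
      have := code_pos s
      simp only [code] at h
      omega
    | cons b t =>
      simp only [code] at h
      have h1 : a.toNat ≤ 1 := Bool.toNat_le _
      have h2 : b.toNat ≤ 1 := Bool.toNat_le _
      have h3 : code s = code t := by omega
      have h4 : a.toNat = b.toNat := by omega
      rw [ih h3]
      revert h4
      cases a <;> cases b <;> simp

lemma code_lt (s : Sym) : code s < 2 ^ (s.length + 1) := by
  induction s with
  | nil => simp [code]
  | cons b s ih =>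
    simp only [code, List.length_cons]
    have h1 : b.toNat ≤ 1 := Bool.toNat_le _
    rw [pow_succ]
    omega

/-- powers -/
def pw (p : Sym × ℕ) : Sym := (List.replicate p.2 p.1).flatten

/-! ### runs -/

/-- flags at the changes, `a` = left neighbour -/
def rf' : Sym → List Sym → List (Sym × Bool)
  | _, [] => []
  | a, b :: l => (b, decide (a ≠ b)) :: rf' b l

/-- flags at the first item and at the changes -/
def rf : List Sym → List (Sym × Bool)
  | [] => []
  | a :: l => (a, true) :: rf' a l

/-- maximal runs of equal items, with their lengths -/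
def runs (l : List Sym) : List (Sym × ℕ) := (cut (rf l)).2.map (fun g => (g.1, g.2.length + 1))

@[simp] lemma length_rf' (a : Sym) (l : List Sym) : (rf' a l).length = l.length := by
  induction l generalizing a with
  | nil => rfl
  | cons b l ih => simp [rf', ih]

@[simp] lemma length_rf (l : List Sym) : (rf l).length = l.length := by
  cases l <;> simp [rf]

lemma rf'_take (a : Sym) (l l' : List Sym) (p : ℕ) (h : l.take p = l'.take p) :
    (rf' a l).take p = (rf' a l').take p := by
  induction l generalizing l' p a with
  | nil =>
    cases p with
    | zero => simp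
    | succ p =>
      cases l' with
      | nil => rfl
      | cons b l' => simp at h
  | cons b l ih =>
    cases p with
    | zero => simp
    | succ p =>
      cases l' with
      | nil => simp at h
      | cons b' l' =>
        simp only [List.take_succ_cons, List.cons.injEq] at h
        obtain ⟨rfl, h⟩ := h
        simp [rf', ih b l' p h]

lemma rf_take (l l' : List Sym) (p : ℕ) (h : l.take p = l'.take p) :
    (rf l).take p = (rf l').take p := by
  cases p with
  | zero => simp
  | succ p =>
    cases l with
    | nil =>
      cases l' with
      | nil => rfl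
      | cons a l' => simp at h
    | cons a l =>
      cases l' with
      | nil => simp at h
      | cons a' l' =>
        simp only [List.take_succ_cons, List.cons.injEq] at h
        obtain ⟨rfl, h⟩ := h
        simp [rf, rf'_take a l l' p h]

lemma rf'_append (a : Sym) (X : List Sym) (b : Sym) (Y : List Sym) :
    ∃ T, rf' a (X ++ b :: Y) = T ++ rf' b Y ∧ T.length = X.length + 1 := by
  induction X generalizing a with
  | nil => exact ⟨[(b, decide (a ≠ b))], rfl, rfl⟩
  | cons x X ih =>
    obtain ⟨T, hT, hl⟩ := ih x
    exact ⟨(x, decide (a ≠ x)) :: T, by simp [rf', hT], by simp [hl]⟩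

lemma rf_append (X : List Sym) (b : Sym) (Y : List Sym) :
    ∃ T, rf (X ++ b :: Y) = T ++ rf' b Y ∧ T.length = X.length + 1 := by
  cases X with
  | nil => exact ⟨[(b, true)], rfl, rfl⟩
  | cons x X =>
    obtain ⟨T, hT, hl⟩ := rf'_append x X b Y
    exact ⟨(x, true) :: T, by simp [rf, hT], by simp [hl]⟩

lemma nfl_le_length {α : Type*} (l : List (α × Bool)) : nfl l ≤ l.length := by
  unfold nfl
  exact (List.count_le_length).trans (by simp)

lemma near_runs {w : ℕ} {l l' : List Sym} (h : Near w l l') : Near (w + 2) (runs l) (runs l') := by
  obtain ⟨A, d, d', B, rfl, rfl, hd, hd'⟩ := h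
  refine Near.map ?_ _
  set u := rf (A ++ (d ++ B)) with hu
  set u' := rf (A ++ (d' ++ B)) with hu'
  have hlu : u.length = A.length + (d.length + B.length) := by simp [hu]
  have hlu' : u'.length = A.length + (d'.length + B.length) := by simp [hu']
  have hp : u.take A.length = u'.take A.length := by
    apply rf_take; simp
  have hs : u.drop (u.length - (B.length - 1)) = u'.drop (u'.length - (B.length - 1)) := by
    cases B with
    | nil => simp
    | cons b B =>
      obtain ⟨T, hT, hl⟩ := rf_append (A ++ d) b B
      obtain ⟨T', hT', hl'⟩ := rf_append (A ++ d') b B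
      have e1 : u = T ++ rf' b B := by rw [← hT, hu]; simp
      have e2 : u' = T' ++ rf' b B := by rw [← hT', hu']; simp
      have l1 : u.length - ((b :: B).length - 1) = T.length := by
        rw [hlu, hl]; simp; omega
      have l2 : u'.length - ((b :: B).length - 1) = T'.length := by
        rw [hlu', hl']; simp; omega
      rw [l1, l2, e1, e2, List.drop_left, List.drop_left]
  obtain ⟨e, e', h1, h2, h3, h4⟩ := split_common u u' A.length (B.length - 1) hp hs
    (by omega) (by omega)
  rw [h1, h2]
  apply near_cut
  · cases hA : u.take A.length with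
    | nil => exact Or.inl rfl
    | cons x P =>
      right
      have hx : x.2 = true := by
        have hcase : ∀ v : List Sym, ∀ y V, (rf v).take A.length = y :: V → y.2 = true := by
          intro v y V hv
          cases v with
          | nil => simp [rf] at hv
          | cons a v =>
            cases hAl : A.length with
            | zero => rw [hAl] at hv; simp at hv
            | succ k =>
              rw [hAl] at hv
              simp only [rf, List.take_succ_cons, List.cons.injEq] at hv
              rw [← hv.1]
        exact hcase _ _ _ hA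
      obtain ⟨x1, x2⟩ := x
      simp only at hx
      subst hx
      simp
  · have := nfl_le_length e; omega
  · have := nfl_le_length e'; omega

/-- the properties of the blocks of equal items -/
lemma cut_rf' (a : Sym) (l : List Sym) :
    (∀ c ∈ (cut (rf' a l)).1, c = a) ∧
    (∀ g ∈ (cut (rf' a l)).2, ∀ c ∈ g.2, c = g.1) ∧
    (a :: (cut (rf' a l)).2.map Prod.fst).IsChain (· ≠ ·) := by
  induction l generalizing a with
  | nil => simp [rf', cut]
  | cons b l ih =>
    obtain ⟨h1, h2, h3⟩ := ih b
    by_cases hab : a = b
    · subst hab
      have hd : decide (a ≠ a) = false := by simp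
      simp only [rf', hd, cut]
      refine ⟨?_, h2, h3⟩
      intro c hc
      rcases List.mem_cons.1 hc with hc | hc
      · exact hc
      · exact h1 c hc
    · have hd : decide (a ≠ b) = true := by simpa using hab
      simp only [rf', hd, cut]
      refine ⟨by simp, ?_, ?_⟩
      · intro g hg
        rcases List.mem_cons.1 hg with hg | hg
        · subst hg; exact h1
        · exact h2 g hg
      · simp only [List.map_cons]
        rw [List.isChain_cons_cons]
        exact ⟨hab, h3⟩

lemma cut_rf (l : List Sym) :
    (cut (rf l)).1 = [] ∧ (∀ g ∈ (cut (rf l)).2, ∀ c ∈ g.2, c = g.1) ∧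
    ((cut (rf l)).2.map Prod.fst).IsChain (· ≠ ·) := by
  cases l with
  | nil => simp [rf, cut]
  | cons a l =>
    obtain ⟨h1, h2, h3⟩ := cut_rf' a l
    simp only [rf, cut]
    refine ⟨trivial, ?_, by simpa using h3⟩
    intro g hg
    rcases List.mem_cons.1 hg with hg | hg
    · subst hg; exact h1
    · exact h2 g hg

lemma rf'_fst (a : Sym) (l : List Sym) : (rf' a l).map Prod.fst = l := by
  induction l generalizing a with
  | nil => rfl
  | cons b l ih => simp [rf', ih]

lemma rf_fst (l : List Sym) : (rf l).map Prod.fst = l := by
  cases l <;> simp [rf, rf'_fst]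

lemma runs_adj (l : List Sym) : ((runs l).map Prod.fst).IsChain (· ≠ ·) := by
  have := (cut_rf l).2.2
  unfold runs
  rw [List.map_map]
  exact this

lemma runs_flatten (l : List Sym) : ((runs l).map pw).flatten = l.flatten := by
  have h1 := cut_content (rf l)
  rw [(cut_rf l).1, List.nil_append, rf_fst] at h1
  conv_rhs => rw [← h1]
  have h2 := (cut_rf l).2.1
  unfold runs
  clear h1
  generalize (cut (rf l)).2 = G at h2
  induction G with
  | nil => simp
  | cons g G ih =>
    have ih' := ih (fun g' hg' => h2 g' (by simp [hg']))
    have hg := h2 g (by simp)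
    rw [List.map_cons, List.map_cons, List.flatten_cons, ih', List.map_cons, List.flatten_cons,
      List.flatten_append]
    congr 1
    have : g.1 :: g.2 = List.replicate (g.2.length + 1) g.1 := by
      rw [List.replicate_succ]
      congr 1
      exact List.eq_replicate_of_mem hg
    simp only [pw]
    rw [← this]

lemma length_runs (l : List Sym) : (runs l).length ≤ l.length := by
  unfold runs
  rw [List.length_map, length_cut]
  exact (nfl_le_length _).trans (by simp)

lemma mem_runs {l : List Sym} {p : Sym × ℕ} (hp : p ∈ runs l) :
    p.1 ∈ l ∧ p.2 ≤ l.length ∧ 1 ≤ p.2 := by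
  unfold runs at hp
  rw [List.mem_map] at hp
  obtain ⟨g, hg, rfl⟩ := hp
  have h1 := cut_content (rf l)
  rw [(cut_rf l).1, List.nil_append, rf_fst] at h1
  have h2 : (g.1 :: g.2) ∈ (cut (rf l)).2.map (fun g => g.1 :: g.2) := List.mem_map_of_mem hg
  refine ⟨?_, ?_, by simp⟩
  · rw [← h1]
    exact List.mem_flatten_of_mem h2 (by simp)
  · have h3 : (g.1 :: g.2).length ≤ l.length := by
      have := (List.sublist_flatten_of_mem h2).length_le
      rwa [h1] at this
    simpa using h3

/-! ### one level -/

/-- colours of the runs after `R` rounds -/
noncomputable def cols (R : ℕ) (r : List (Sym × ℕ)) : List ℕ :=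
  toss^[R] (r.map (fun p => code p.1))

/-- flagged runs -/
noncomputable def flg (R : ℕ) (r : List (Sym × ℕ)) : List ((Sym × ℕ) × Bool) :=
  r.zip (fl (cols R r))

/-- one level of the parse -/
noncomputable def lev (R : ℕ) (l : List Sym) : List Sym :=
  (cut (flg R (runs l))).2.map (fun g => ((g.1 :: g.2).map pw).flatten)

lemma length_cols (R : ℕ) (r : List (Sym × ℕ)) : (cols R r).length = r.length := by
  simp [cols, length_iter]

lemma length_flg (R : ℕ) (r : List (Sym × ℕ)) : (flg R r).length = r.length := by
  simp [flg, length_cols]

lemma flg_snd (R : ℕ) (r : List (Sym × ℕ)) : (flg R r).map Prod.snd = fl (cols R r) := by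
  unfold flg
  apply List.map_snd_zip
  simp [length_cols]

lemma flg_fst (R : ℕ) (r : List (Sym × ℕ)) : (flg R r).map Prod.fst = r := by
  unfold flg
  apply List.map_fst_zip
  simp [length_cols]

lemma flg_take (R : ℕ) (r r' : List (Sym × ℕ)) (p : ℕ) (h : r.take p = r'.take p) :
    (flg R r).take (p - (R + 1)) = (flg R r').take (p - (R + 1)) := by
  unfold flg
  have hz : ∀ (a : List (Sym × ℕ)) (b : List Bool) (k : ℕ),
      (a.zip b).take k = (a.take k).zip (b.take k) := by
    intro a b k
    simp only [List.zip]
    exact List.take_zipWith
  rw [hz, hz]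
  have h1 : (r.map (fun p => code p.1)).take p = (r'.map (fun p => code p.1)).take p := by
    rw [← List.map_take, ← List.map_take, h]
  have h2 := iter_take R _ _ p h1
  have h3 := fl_take _ _ _ h2
  rw [Nat.sub_sub] at h3
  have h4 : r.take (p - (R + 1)) = r'.take (p - (R + 1)) := by
    have := congrArg (List.take (p - (R + 1))) h
    rwa [List.take_take, List.take_take, min_eq_left (Nat.sub_le _ _)] at this
  rw [h4]
  congr 1

lemma flg_append (R : ℕ) (b : Sym × ℕ) (Y : List (Sym × ℕ)) :
    ∃ V, ∀ X, ∃ T, flg R (X ++ b :: Y) = T ++ V ∧ T.length = X.length + 1 := by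
  set K := cols R (b :: Y) with hK
  have hKl : K.length = Y.length + 1 := by rw [hK, length_cols]; simp
  obtain ⟨c, K', hc⟩ : ∃ c K', K = c :: K' := by
    cases hK2 : K with
    | nil => rw [hK2] at hKl; simp at hKl
    | cons c K' => exact ⟨c, K', rfl⟩
  refine ⟨Y.zip (fl' c K'), fun X => ?_⟩
  obtain ⟨T1, h1, l1⟩ := iter_append R (X.map (fun p => code p.1))
    ((b :: Y).map (fun p => code p.1))
  have h2 : cols R (X ++ b :: Y) = T1 ++ c :: K' := by
    rw [← hc, hK]
    unfold cols
    rw [List.map_append, h1]
  obtain ⟨T2, h3, l2⟩ := fl_append T1 c K'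
  refine ⟨(X ++ [b]).zip T2, ?_, ?_⟩
  · unfold flg
    rw [h2, h3]
    have : X ++ b :: Y = (X ++ [b]) ++ Y := by simp
    rw [this]
    apply List.zip_append
    simp [l2, l1]
  · simp [l2, l1]

lemma nfl_flg (R : ℕ) (r : List (Sym × ℕ)) (P e S : List ((Sym × ℕ) × Bool))
    (h : flg R r = P ++ (e ++ S)) : 2 * nfl e ≤ e.length + 2 := by
  have h1 : fl (cols R r) = P.map Prod.snd ++ (e.map Prod.snd ++ S.map Prod.snd) := by
    rw [← flg_snd, h]; simp
  have := count_infix _ _ _ _ h1
  simpa [nfl] using this

lemma near_lev (R : ℕ) {l l' : List Sym} (h : Near (R + 8) l l') :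
    Near (R + 8) (lev R l) (lev R l') := by
  have hr := near_runs h
  obtain ⟨A, d, d', B, h1, h2, hd, hd'⟩ := hr
  unfold lev
  rw [h1, h2]
  refine Near.map ?_ _
  set u := flg R (A ++ (d ++ B)) with hu
  set u' := flg R (A ++ (d' ++ B)) with hu'
  have hlu : u.length = A.length + (d.length + B.length) := by simp [hu, length_flg]
  have hlu' : u'.length = A.length + (d'.length + B.length) := by simp [hu', length_flg]
  have hp : u.take (A.length - (R + 1)) = u'.take (A.length - (R + 1)) := by
    apply flg_take; simp
  have hs : u.drop (u.length - (B.length - 1)) = u'.drop (u'.length - (B.length - 1)) := by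
    cases B with
    | nil => simp
    | cons b B =>
      obtain ⟨V, hV⟩ := flg_append R b B
      obtain ⟨T, hT, hl⟩ := hV (A ++ d)
      obtain ⟨T', hT', hl'⟩ := hV (A ++ d')
      have e1 : u = T ++ V := by rw [← hT, hu]; simp
      have e2 : u' = T' ++ V := by rw [← hT', hu']; simp
      have l1 : u.length - ((b :: B).length - 1) = T.length := by
        rw [hlu, hl]; simp; omega
      have l2 : u'.length - ((b :: B).length - 1) = T'.length := by
        rw [hlu', hl']; simp; omega
      rw [l1, l2, e1, e2, List.drop_left, List.drop_left]
  obtain ⟨e, e', h3, h4, h5, h6⟩ := split_common u u' (A.length - (R + 1)) (B.length - 1) hp hs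
    (by omega) (by omega)
  have n1 := nfl_flg R _ _ _ _ (hu.symm.trans h3)
  have n2 := nfl_flg R _ _ _ _ (hu'.symm.trans h4)
  rw [h3, h4]
  apply near_cut
  · cases hA : u.take (A.length - (R + 1)) with
    | nil => exact Or.inl rfl
    | cons x P =>
      right
      have hx : x.2 = true := by
        have hcase : ∀ v : List (Sym × ℕ), ∀ k y V, (flg R v).take k = y :: V → y.2 = true := by
          intro v k y V hv
          have hv2 := congrArg (List.map Prod.snd) hv
          rw [List.map_take, flg_snd] at hv2
          cases hK : cols R v with
          | nil => rw [hK] at hv2; simp [fl] at hv2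
          | cons a K =>
            rw [hK] at hv2
            cases k with
            | zero => simp at hv2
            | succ k =>
              simp only [fl, List.take_succ_cons, List.map_cons, List.cons.injEq] at hv2
              exact hv2.1.symm
        exact hcase _ _ _ _ hA
      obtain ⟨x1, x2⟩ := x
      simp only at hx
      subst hx
      simp
  · omega
  · omega

lemma length_lev (R : ℕ) (l : List Sym) : 2 * (lev R l).length ≤ l.length + 1 := by
  unfold lev
  rw [List.length_map, length_cut]
  unfold nfl
  rw [flg_snd]
  have := count_fl (cols R (runs l))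
  rw [length_cols] at this
  have := length_runs l
  omega

lemma cut_flg_fst (R : ℕ) (r : List (Sym × ℕ)) : (cut (flg R r)).1 = [] := by
  unfold flg
  cases r with
  | nil => simp [cut]
  | cons a r =>
    cases hK : cols R (a :: r) with
    | nil => have := length_cols R (a :: r); rw [hK] at this; simp at this
    | cons c K => simp [fl, cut]

lemma lev_flatten (R : ℕ) (l : List Sym) : (lev R l).flatten = l.flatten := by
  have h1 := cut_content (flg R (runs l))
  rw [cut_flg_fst, List.nil_append, flg_fst] at h1
  rw [← runs_flatten l]
  conv_rhs => rw [← h1]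
  unfold lev
  generalize (cut (flg R (runs l))).2 = G
  induction G with
  | nil => simp
  | cons g G ih =>
    simp only [List.map_cons, List.flatten_cons, List.map_append, List.flatten_append,
      List.cons_append] at ih ⊢
    rw [ih, List.append_assoc]

/-- bound for the number of items before the next flag -/
def bd (a : ℕ) : List ℕ → ℕ
  | [] => 0
  | b :: _ => if b < a then a else 10 - a

lemma block_bound {α : Type*} (K : List ℕ) : ∀ (a : ℕ) (r : List α), Adj (a :: K) →
    (∀ c ∈ a :: K, c < 6) →
    (cut (r.zip (fl' a K))).1.length ≤ bd a K ∧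
      ∀ g ∈ (cut (r.zip (fl' a K))).2, g.2.length ≤ 10 := by
  induction K with
  | nil => intro a r _ _; simp [fl', cut]
  | cons b K ih =>
    intro a r hadj hlt
    cases r with
    | nil => simp [cut]
    | cons x r =>
      have hab : a ≠ b := by
        unfold Adj at hadj
        rw [List.isChain_cons_cons] at hadj
        exact hadj.1
      have hadj2 : Adj (b :: K) := by
        unfold Adj at hadj ⊢
        rw [List.isChain_cons_cons] at hadj
        exact hadj.2
      obtain ⟨i1, i2⟩ := ih b r hadj2 (fun c hc => hlt c (by simp [List.mem_cons.1 hc]))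
      have ha6 := hlt a (by simp)
      have hb6 := hlt b (by simp)
      have hbd : bd b K ≤ 10 := by
        cases K with
        | nil => simp [bd]
        | cons c K => simp only [bd]; split_ifs <;> omega
      have hfl : fl' a (b :: K) = (match K with
          | [] => false
          | c :: _ => decide (b < a ∧ b < c)) :: fl' b K := by
        cases K with
        | nil => rfl
        | cons c K => rfl
      rw [hfl]
      cases K with
      | nil =>
        simp only [List.zip_cons_cons, cut] at i1 i2 ⊢
        refine ⟨?_, i2⟩
        simp only [bd, List.length_cons] at i1 ⊢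
        split_ifs <;> omega
      | cons c K =>
        have hbc : b ≠ c := by
          unfold Adj at hadj2
          rw [List.isChain_cons_cons] at hadj2
          exact hadj2.1
        have hc6 := hlt c (by simp)
        by_cases hf : b < a ∧ b < c
        · have hd : decide (b < a ∧ b < c) = true := by simpa using hf
          simp only [hd, List.zip_cons_cons, cut]
          refine ⟨by simp, ?_⟩
          intro g hg
          rcases List.mem_cons.1 hg with hg | hg
          · subst hg; exact i1.trans hbd
          · exact i2 g hg
        · have hd : decide (b < a ∧ b < c) = false := by simpa using hf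
          simp only [hd, List.zip_cons_cons, cut]
          refine ⟨?_, i2⟩
          simp only [bd, List.length_cons] at i1 ⊢
          split_ifs at i1 ⊢ <;> omega

lemma block_bound_flg (R : ℕ) (r : List (Sym × ℕ)) (hadj : Adj (cols R r))
    (hlt : ∀ c ∈ cols R r, c < 6) : ∀ g ∈ (cut (flg R r)).2, g.2.length ≤ 10 := by
  unfold flg
  cases r with
  | nil => simp [cut]
  | cons x r =>
    cases hK : cols R (x :: r) with
    | nil => simp [fl, cut]
    | cons a K =>
      rw [hK] at hadj hlt
      obtain ⟨i1, i2⟩ := block_bound K a r hadj hlt
      simp only [fl, List.zip_cons_cons, cut]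
      intro g hg
      rcases List.mem_cons.1 hg with hg | hg
      · subst hg
        refine i1.trans ?_
        have := hlt a (by simp)
        cases K with
        | nil => simp [bd]
        | cons c K => simp only [bd]; split_ifs <;> omega
      · exact i2 g hg

/-- the blocks of a level are short products of powers of the items -/
lemma lev_desc (R : ℕ) (l : List Sym) (hadj : Adj (cols R (runs l)))
    (hlt : ∀ c ∈ cols R (runs l), c < 6) (v : Sym) (hv : v ∈ lev R l) :
    ∃ g : List (Sym × ℕ), g.length ≤ 11 ∧ (∀ p ∈ g, p.1 ∈ l ∧ p.2 ≤ l.length) ∧
      v = (g.map pw).flatten := by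
  unfold lev at hv
  rw [List.mem_map] at hv
  obtain ⟨g, hg, rfl⟩ := hv
  refine ⟨g.1 :: g.2, ?_, ?_, rfl⟩
  · have := block_bound_flg R (runs l) hadj hlt g hg
    simp; omega
  · intro p hp
    have h1 := cut_content (flg R (runs l))
    rw [cut_flg_fst, List.nil_append, flg_fst] at h1
    have h2 : (g.1 :: g.2) ∈ (cut (flg R (runs l))).2.map (fun g => g.1 :: g.2) :=
      List.mem_map_of_mem hg
    have h3 : p ∈ runs l := by
      rw [← h1]
      exact List.mem_flatten_of_mem h2 hp
    exact ⟨(mem_runs h3).1, (mem_runs h3).2.1⟩

lemma adj_cols (R : ℕ) (l : List Sym) : Adj (cols R (runs l)) := by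
  apply adj_iter
  have h := runs_adj l
  unfold Adj
  have h2 : (runs l).map (fun p => code p.1) = ((runs l).map Prod.fst).map code := by
    rw [List.map_map]; rfl
  rw [h2, List.isChain_map]
  exact h.imp (fun a b hab => fun he => hab (code_inj he))

end Pool.Agent.EHD
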