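import Pool.Agent.EHD.Lev

/-!
# EHD (MP_7d1a15_lc): the levels of the parse
-/

namespace Pool.Agent.EHD

/-- The iterated logarithm: the least `k` such that the `k`-fold iterate of the binary logarithm
(rounded down) at `n` is at most `1`. -/
noncomputable def logStar (n : ℕ) : ℕ := sInf {k | (Nat.log 2)^[k] n ≤ 1}

lemma iter_log_le (n k : ℕ) : (Nat.log 2)^[k] n ≤ max 1 (n - k) := by
  induction k with
  | zero => simp
  | succ k ih =>
    rw [Function.iterate_succ_apply']
    set v := (Nat.log 2)^[k] n
    have h1 : Nat.log 2 v ≤ v - 1 := by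
      rcases Nat.eq_zero_or_pos v with h | h
      · rw [h]; simp
      · have := Nat.log_lt_self 2 h.ne'
        omega
    have h2 : v ≤ 1 ∨ v ≤ n - k := by
      rcases le_max_iff.1 ih with h | h
      · exact Or.inl h
      · exact Or.inr h
    rw [le_max_iff]
    omega

lemma logStar_spec (n : ℕ) : (Nat.log 2)^[logStar n] n ≤ 1 := by
  have hne : {k | (Nat.log 2)^[k] n ≤ 1}.Nonempty := by
    refine ⟨n, ?_⟩
    have := iter_log_le n n
    simpa using this
  exact Nat.sInf_mem hne

lemma one_le_logStar {n : ℕ} (hn : 2 ≤ n) : 1 ≤ logStar n := by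
  by_contra hcon
  have h0 : logStar n = 0 := by omega
  have := logStar_spec n
  rw [h0] at this
  simp at this
  omega

lemma bt_mono {B B' : ℕ} (h : B ≤ B') : bt B ≤ bt B' := by
  unfold bt
  exact Nat.clog_mono_right 2 (by omega)

lemma iter_bt_le (n k : ℕ) : bt^[k] (n + 1) ≤ (Nat.log 2)^[k] n + 6 := by
  induction k with
  | zero => simp
  | succ k ih =>
    rw [Function.iterate_succ_apply', Function.iterate_succ_apply']
    set a := (Nat.log 2)^[k] n
    refine (bt_mono ih).trans ?_
    unfold bt
    apply Nat.clog_le_of_le_pow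
    have h := Nat.lt_pow_succ_log_self (b := 2) (by norm_num) a
    rw [Nat.succ_eq_add_one] at h
    have : 2 ^ (Nat.log 2 a + 6) = 32 * 2 ^ (Nat.log 2 a + 1) := by ring
    omega

lemma iter_bt_final (n : ℕ) : bt^[logStar n + 2] (n + 1) ≤ 3 := by
  rw [Function.iterate_succ_apply', Function.iterate_succ_apply']
  have h1 : bt^[logStar n] (n + 1) ≤ 7 := by
    have := iter_bt_le n (logStar n)
    have := logStar_spec n
    omega
  have h2 : bt (bt^[logStar n] (n + 1)) ≤ 4 := by
    refine (bt_mono h1).trans ?_
    unfold bt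
    apply Nat.clog_le_of_le_pow
    norm_num
  refine (bt_mono h2).trans ?_
  unfold bt
  apply Nat.clog_le_of_le_pow
  norm_num

/-- number of rounds -/
noncomputable def rd (n : ℕ) : ℕ := logStar n + 3

lemma cols_lt (n : ℕ) (l : List Sym) (h : ∀ u ∈ l, u.length ≤ n) :
    ∀ c ∈ cols (rd n) (runs l), c < 6 := by
  unfold cols rd
  have e : logStar n + 3 = (logStar n + 2) + 1 := rfl
  rw [e, Function.iterate_succ_apply']
  have hc : ∀ a ∈ (runs l).map (fun p => code p.1), a < 2 ^ (n + 1) := by
    intro a ha
    rw [List.mem_map] at ha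
    obtain ⟨p, hp, rfl⟩ := ha
    refine (code_lt p.1).trans_le ?_
    apply Nat.pow_le_pow_right (by norm_num)
    have := h p.1 (mem_runs hp).1
    omega
  obtain ⟨h1, -⟩ := iter_lt (logStar n + 2) (Nat.succ_pos n) hc
  have h2 := iter_bt_final n
  have h3 : ∀ a ∈ toss^[logStar n + 2] ((runs l).map (fun p => code p.1)), a < 2 ^ 3 := by
    intro a ha
    exact (h1 a ha).trans_le (Nat.pow_le_pow_right (by norm_num) h2)
  exact toss_lt (by norm_num) h3

/-- the letters -/
def P0 (x : List Bool) : List Sym := x.map (fun b => [b])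

/-- the parse of level `i` -/
noncomputable def L (R i : ℕ) (x : List Bool) : List Sym := (lev R)^[i] (P0 x)

lemma L_succ (R i : ℕ) (x : List Bool) : L R (i + 1) x = lev R (L R i x) := by
  unfold L
  rw [Function.iterate_succ_apply']

lemma L_flatten (R i : ℕ) (x : List Bool) : (L R i x).flatten = x := by
  induction i with
  | zero =>
    simp only [L, Function.iterate_zero, id, P0]
    induction x with
    | nil => rfl
    | cons b x ih => simp [ih]
  | succ i ih => rw [L_succ, lev_flatten, ih]

lemma length_L (R i : ℕ) (x : List Bool) : ((L R i x).length - 1) * 2 ^ i ≤ x.length - 1 := by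
  induction i with
  | zero => simp [L, P0]
  | succ i ih =>
    rw [L_succ]
    have h := length_lev R (L R i x)
    have h2 : ((lev R (L R i x)).length - 1) * 2 ≤ (L R i x).length - 1 := by omega
    calc ((lev R (L R i x)).length - 1) * 2 ^ (i + 1)
        = ((lev R (L R i x)).length - 1) * 2 * 2 ^ i := by ring
      _ ≤ ((L R i x).length - 1) * 2 ^ i := Nat.mul_le_mul_right _ h2
      _ ≤ _ := ih

lemma length_L_le (R i : ℕ) (x : List Bool) : (L R i x).length ≤ x.length := by
  induction i with
  | zero => simp [L, P0]
  | succ i ih =>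
    rw [L_succ]
    have h := length_lev R (L R i x)
    rcases Nat.eq_zero_or_pos (L R i x).length with h0 | h0
    · omega
    · omega

lemma mem_L_length {R i : ℕ} {x : List Bool} {u : Sym} (hu : u ∈ L R i x) :
    u.length ≤ x.length := by
  have := (List.sublist_flatten_of_mem hu).length_le
  rwa [L_flatten] at this

lemma L_top (R i : ℕ) (x : List Bool) (hx : x ≠ []) (hi : x.length ≤ 2 ^ i) :
    L R i x = [x] := by
  have h1 := length_L R i x
  have h2 := L_flatten R i x
  have hx1 : 1 ≤ x.length := List.length_pos_iff.2 hx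
  have h3 : (L R i x).length ≤ 1 := by
    by_contra hcon
    have : 1 ≤ (L R i x).length - 1 := by omega
    have h4 : 1 * 2 ^ i ≤ ((L R i x).length - 1) * 2 ^ i := Nat.mul_le_mul_right _ this
    omega
  cases hL : L R i x with
  | nil =>
    rw [hL] at h2
    exact absurd h2.symm hx
  | cons a l =>
    rw [hL] at h3 h2
    cases l with
    | nil => simp at h2; rw [h2]
    | cons b l => simp at h3

lemma near_L (R i : ℕ) {x y : List Bool} (h : Near (R + 8) (P0 x) (P0 y)) :
    Near (R + 8) (L R i x) (L R i y) := by
  induction i with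
  | zero => exact h
  | succ i ih => rw [L_succ, L_succ]; exact near_lev R ih

lemma L_desc (n i : ℕ) {x : List Bool} (hx : x.length ≤ n) {v : Sym}
    (hv : v ∈ L (rd n) (i + 1) x) :
    ∃ g : List (Sym × ℕ), g.length ≤ 11 ∧ (∀ p ∈ g, p.1 ∈ L (rd n) i x ∧ p.2 ≤ n) ∧
      v = (g.map pw).flatten := by
  rw [L_succ] at hv
  obtain ⟨g, h1, h2, h3⟩ := lev_desc (rd n) (L (rd n) i x) (adj_cols _ _)
    (cols_lt n _ fun u hu => (mem_L_length hu).trans hx) v hv
  exact ⟨g, h1, fun p hp => ⟨(h2 p hp).1, (h2 p hp).2.trans ((length_L_le _ _ _).trans hx)⟩, h3⟩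

/-! ### descriptions -/

/-- `v` is built in `j` steps from elements of `S`, each step being a product of at most eleven
powers with exponents at most `n`. -/
def D (n : ℕ) : ℕ → Set Sym → Sym → Prop
  | 0, S, v => v ∈ S
  | j + 1, S, v => ∃ g : List (Sym × ℕ), g.length ≤ 11 ∧ (∀ p ∈ g, D n j S p.1 ∧ p.2 ≤ n) ∧
      v = (g.map pw).flatten

lemma D_mono (n j : ℕ) {S T : Set Sym} (h : S ⊆ T) {v : Sym} (hv : D n j S v) : D n j T v := by
  induction j generalizing v with
  | zero => exact h hv
  | succ j ih =>
    obtain ⟨g, h1, h2, h3⟩ := hv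
    exact ⟨g, h1, fun p hp => ⟨ih (h2 p hp).1, (h2 p hp).2⟩, h3⟩

lemma L_D (n i j : ℕ) {x : List Bool} (hx : x.length ≤ n) {v : Sym}
    (hv : v ∈ L (rd n) (i + j) x) : D n j {u | u ∈ L (rd n) i x} v := by
  induction j generalizing v with
  | zero => exact hv
  | succ j ih =>
    obtain ⟨g, h1, h2, h3⟩ := L_desc n (i + j) hx (v := v) hv
    exact ⟨g, h1, fun p hp => ⟨ih (h2 p hp).1, (h2 p hp).2⟩, h3⟩

/-- formal descriptions with `P` pointers -/
def IT (n P : ℕ) : ℕ → Type
  | 0 => Fin P
  | j + 1 => Fin 11 → Option (IT n P j × Fin (n + 1))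

instance instFintypeIT (n P : ℕ) : ∀ j, Fintype (IT n P j)
  | 0 => inferInstanceAs (Fintype (Fin P))
  | j + 1 =>
    haveI := instFintypeIT n P j
    haveI : DecidableEq (Fin 11) := inferInstance
    inferInstanceAs (Fintype (Fin 11 → Option (IT n P j × Fin (n + 1))))

/-- evaluation of a description -/
def ev (n P : ℕ) (ptr : ℕ → Sym) : ∀ j, IT n P j → Sym
  | 0, i => ptr i.val
  | j + 1, f => ((List.finRange 11).map (fun i => match f i with
      | none => []
      | some (T, k) => pw (ev n P ptr j T, k.val))).flatten

lemma ev_succ (n P : ℕ) (ptr : ℕ → Sym) (j : ℕ) (f : Fin 11 → Option (IT n P j × Fin (n + 1))) :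
    ev n P ptr (j + 1) f = ((List.finRange 11).map (fun i => match f i with
      | none => []
      | some (T, k) => pw (ev n P ptr j T, k.val))).flatten := rfl

lemma flatten_getElem (g : List (Sym × ℕ)) (hg : g.length ≤ 11) :
    ((List.finRange 11).map (fun i => match g[i.val]? with
      | none => ([] : Sym)
      | some p => pw p)).flatten = (g.map pw).flatten := by
  have key : ∀ N : ℕ, g.length ≤ N → ((List.range N).map (fun i => match g[i]? with
      | none => ([] : Sym)
      | some p => pw p)).flatten = (g.map pw).flatten := by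
    intro N hN
    have h1 : List.range N = List.range g.length ++ (List.range (N - g.length)).map
        (fun i => g.length + i) := by
      rw [← List.range_add]; congr 1; omega
    rw [h1, List.map_append, List.flatten_append]
    have h2 : ((List.range (N - g.length)).map (fun i => g.length + i)).map
        (fun i => match g[i]? with
        | none => ([] : Sym)
        | some p => pw p) = List.replicate (N - g.length) [] := by
      rw [List.map_map]
      apply List.ext_getElem
      · simp
      · intro i _ _
        simp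
    have h3 : (List.range g.length).map (fun i => match g[i]? with
        | none => ([] : Sym)
        | some p => pw p) = g.map pw := by
      apply List.ext_getElem
      · simp
      · intro i hi1 hi2
        have hi : i < g.length := by simpa using hi1
        simp [List.getElem?_eq_getElem hi]
    rw [h2, h3]
    simp
  rw [← key 11 hg]
  congr 1

lemma exists_IT (n P : ℕ) (ptr : ℕ → Sym) (S : Set Sym)
    (hS : ∀ v ∈ S, ∃ i < P, ptr i = v) (j : ℕ) (v : Sym) (hv : D n j S v) :
    ∃ T : IT n P j, ev n P ptr j T = v := by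
  induction j generalizing v with
  | zero =>
    obtain ⟨i, hi, h⟩ := hS v hv
    exact ⟨⟨i, hi⟩, h⟩
  | succ j ih =>
    obtain ⟨g, h1, h2, rfl⟩ := hv
    choose T hT using fun (p : Sym × ℕ) (hp : p ∈ g) => ih p.1 (h2 p hp).1
    refine ⟨fun i => if h : i.val < g.length then
      some (T (g[i.val]) (List.getElem_mem h), ⟨(g[i.val]).2, by
        have := (h2 _ (List.getElem_mem h)).2; omega⟩) else none, ?_⟩
    rw [← flatten_getElem g h1]
    refine (ev_succ n P ptr j _).trans ?_
    congr 1
    apply List.map_congr_left
    intro i _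
    by_cases h : i.val < g.length
    · simp only [h, dite_true]
      rw [List.getElem?_eq_getElem h]
      simp only
      rw [hT]
    · simp only [h, dite_false]
      rw [List.getElem?_eq_none (by omega)]

lemma card_IT (n P p j : ℕ) (hn : 2 ≤ n) (hP : P ≤ n ^ p) :
    Fintype.card (IT n P j) ≤ n ^ (11 ^ j * (p + 3)) := by
  have key : ∀ j, ∃ a, Fintype.card (IT n P j) ≤ n ^ a ∧ a + 3 ≤ 11 ^ j * (p + 3) := by
    intro j
    induction j with
    | zero =>
      refine ⟨p, ?_, by simp⟩
      have : Fintype.card (IT n P 0) = Fintype.card (Fin P) := by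
        apply Fintype.card_congr
        exact Equiv.refl _
      rw [this, Fintype.card_fin]
      exact hP
    | succ j ih =>
      obtain ⟨a, h1, h2⟩ := ih
      refine ⟨11 * (a + 2), ?_, ?_⟩
      · have hc : Fintype.card (IT n P (j + 1)) = (Fintype.card (IT n P j) * (n + 1) + 1) ^ 11 := by
          have : Fintype.card (IT n P (j + 1))
              = Fintype.card (Fin 11 → Option (IT n P j × Fin (n + 1))) := by
            apply Fintype.card_congr
            exact Equiv.refl _
          rw [this]
          simp
        rw [hc]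
        have h3 : Fintype.card (IT n P j) * (n + 1) + 1 ≤ n ^ (a + 2) := by
          have h4 : 1 ≤ n ^ a := Nat.one_le_pow _ _ (by omega)
          calc Fintype.card (IT n P j) * (n + 1) + 1 ≤ n ^ a * (n + 1) + n ^ a * 1 := by
                have := Nat.mul_le_mul_right (n + 1) h1
                omega
            _ = n ^ a * (n + 2) := by ring
            _ ≤ n ^ a * n ^ 2 := by
                apply Nat.mul_le_mul_left
                nlinarith
            _ = n ^ (a + 2) := by rw [pow_add]
        calc (Fintype.card (IT n P j) * (n + 1) + 1) ^ 11 ≤ (n ^ (a + 2)) ^ 11 :=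
              Nat.pow_le_pow_left h3 11
          _ = n ^ (11 * (a + 2)) := by rw [← pow_mul]; congr 1; ring
      · have : 11 ^ (j + 1) * (p + 3) = 11 * (11 ^ j * (p + 3)) := by ring
        rw [this]
        omega
  obtain ⟨a, h1, h2⟩ := key j
  exact h1.trans (Nat.pow_le_pow_right (by omega) (by omega))

end Pool.Agent.EHD
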