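import Pool.Agent.EHD.Cut

/-!
# EHD (MP_7d1a15_lc): coin tossing, local minima
-/

namespace Pool.Agent.EHD

/-- least index at which the binary digits of `a` and `b` differ (`0` if `a = b`) -/
noncomputable def ld (a b : ℕ) : ℕ := sInf {i | a.testBit i ≠ b.testBit i}

/-- one step of coin tossing: the index `ld a b` and the digit of `a` there -/
noncomputable def ct (a b : ℕ) : ℕ := 2 * ld a b + (a.testBit (ld a b)).toNat

lemma ld_spec {a b : ℕ} (h : a ≠ b) : a.testBit (ld a b) ≠ b.testBit (ld a b) := by
  have hne : {i | a.testBit i ≠ b.testBit i}.Nonempty := by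
    by_contra hcon
    rw [Set.not_nonempty_iff_eq_empty] at hcon
    apply h
    apply Nat.eq_of_testBit_eq
    intro i
    by_contra hi
    have : i ∈ {i | a.testBit i ≠ b.testBit i} := hi
    rw [hcon] at this
    exact this
  exact Nat.sInf_mem hne

lemma ld_self (a : ℕ) : ld a a = 0 := by simp [ld]

lemma ld_lt {a b B : ℕ} (h : a ≠ b) (ha : a < 2 ^ B) (hb : b < 2 ^ B) : ld a b < B := by
  by_contra hcon
  push Not at hcon
  have h1 := ld_spec h
  rw [Nat.testBit_lt_two_pow (ha.trans_le (Nat.pow_le_pow_right (by norm_num) hcon)),
    Nat.testBit_lt_two_pow (hb.trans_le (Nat.pow_le_pow_right (by norm_num) hcon))] at h1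
  exact h1 rfl

lemma ct_lt {a b B : ℕ} (hB : 0 < B) (ha : a < 2 ^ B) (hb : b < 2 ^ B) : ct a b < 2 * B := by
  unfold ct
  have h1 : (a.testBit (ld a b)).toNat ≤ 1 := Bool.toNat_le _
  by_cases h : a = b
  · subst h
    rw [ld_self] at h1 ⊢
    omega
  · have := ld_lt h ha hb
    omega

lemma ct_ne {a b c : ℕ} (h : a ≠ b) : ct a b ≠ ct b c := by
  intro he
  have h1 := ld_spec h
  unfold ct at he
  have h2 : (a.testBit (ld a b)).toNat ≤ 1 := Bool.toNat_le _
  have h3 : (b.testBit (ld b c)).toNat ≤ 1 := Bool.toNat_le _
  have h4 : ld a b = ld b c := by omega
  rw [← h4] at he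
  have h5 : (a.testBit (ld a b)).toNat = (b.testBit (ld a b)).toNat := by omega
  revert h1 h5
  cases a.testBit (ld a b) <;> cases b.testBit (ld a b) <;> simp

/-- coin tossing for a list -/
noncomputable def toss : List ℕ → List ℕ
  | [] => []
  | [a] => [ct a a]
  | a :: b :: l => ct a b :: toss (b :: l)

@[simp] lemma length_toss (l : List ℕ) : (toss l).length = l.length := by
  induction l with
  | nil => rfl
  | cons a l ih =>
    cases l with
    | nil => rfl
    | cons b l => simp [toss, ih]

/-- neighbours are different -/
def Adj (l : List ℕ) : Prop := l.IsChain (· ≠ ·)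

lemma toss_cons_head (b : ℕ) (l : List ℕ) : ∃ c r, toss (b :: l) = ct b c :: r := by
  cases l with
  | nil => exact ⟨b, [], rfl⟩
  | cons c l => exact ⟨c, _, rfl⟩

lemma adj_toss {l : List ℕ} (h : Adj l) : Adj (toss l) := by
  induction l with
  | nil => simp [toss, Adj]
  | cons a l ih =>
    cases l with
    | nil => simp [toss, Adj]
    | cons b l =>
      unfold Adj at h ih ⊢
      rw [List.isChain_cons_cons] at h
      obtain ⟨c, r, hc⟩ := toss_cons_head b l
      have ih' := ih h.2
      simp only [toss]
      rw [hc] at ih' ⊢
      rw [List.isChain_cons_cons]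
      exact ⟨ct_ne h.1, ih'⟩

lemma toss_lt {l : List ℕ} {B : ℕ} (hB : 0 < B) (h : ∀ a ∈ l, a < 2 ^ B) :
    ∀ a ∈ toss l, a < 2 * B := by
  induction l with
  | nil => simp [toss]
  | cons a l ih =>
    cases l with
    | nil =>
      intro c hc
      simp only [toss, List.mem_singleton] at hc
      subst hc
      exact ct_lt hB (h a (by simp)) (h a (by simp))
    | cons b l =>
      intro c hc
      simp only [toss, List.mem_cons] at hc
      rcases hc with hc | hc
      · subst hc
        exact ct_lt hB (h a (by simp)) (h b (by simp))
      · exact ih (fun x hx => h x (by simp [List.mem_cons.1 hx])) c hc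

/-- common beginnings -/
lemma toss_take (l l' : List ℕ) (p : ℕ) (h : l.take p = l'.take p) :
    (toss l).take (p - 1) = (toss l').take (p - 1) := by
  induction l generalizing l' p with
  | nil =>
    cases p with
    | zero => simp
    | succ p =>
      cases l' with
      | nil => rfl
      | cons a l' => simp at h
  | cons a l ih =>
    cases p with
    | zero => simp
    | succ p =>
      cases l' with
      | nil => simp at h
      | cons a' l' =>
        simp only [List.take_succ_cons, List.cons.injEq] at h
        obtain ⟨rfl, h⟩ := h
        simp only [Nat.add_sub_cancel]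
        cases p with
        | zero => simp
        | succ p =>
          cases l with
          | nil =>
            cases l' with
            | nil => rfl
            | cons b l' => simp at h
          | cons b l =>
            cases l' with
            | nil => simp at h
            | cons b' l' =>
              have h2 := ih (b' :: l') (p + 1) h
              simp only [List.take_succ_cons, List.cons.injEq] at h
              obtain ⟨rfl, h⟩ := h
              simp only [toss, List.take_succ_cons]
              simp only [Nat.add_sub_cancel] at h2
              rw [h2]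

/-- common ends -/
lemma toss_append (X Y : List ℕ) : ∃ T, toss (X ++ Y) = T ++ toss Y ∧ T.length = X.length := by
  induction X with
  | nil => exact ⟨[], rfl, rfl⟩
  | cons a X ih =>
    obtain ⟨T, hT, hl⟩ := ih
    rw [List.cons_append]
    cases hXY : X ++ Y with
    | nil =>
      have : X = [] ∧ Y = [] := by simpa using hXY
      obtain ⟨rfl, rfl⟩ := this
      exact ⟨[ct a a], rfl, rfl⟩
    | cons b l =>
      rw [hXY] at hT
      exact ⟨ct a b :: T, by simp [toss, hT], by simp [hl]⟩

/-! ### iterates -/

lemma length_iter (R : ℕ) (l : List ℕ) : (toss^[R] l).length = l.length := by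
  induction R generalizing l with
  | zero => rfl
  | succ R ih => rw [Function.iterate_succ_apply, ih, length_toss]

lemma adj_iter (R : ℕ) {l : List ℕ} (h : Adj l) : Adj (toss^[R] l) := by
  induction R generalizing l with
  | zero => exact h
  | succ R ih => rw [Function.iterate_succ_apply]; exact ih (adj_toss h)

lemma iter_take (R : ℕ) (l l' : List ℕ) (p : ℕ) (h : l.take p = l'.take p) :
    (toss^[R] l).take (p - R) = (toss^[R] l').take (p - R) := by
  induction R generalizing l l' p with
  | zero => exact h
  | succ R ih =>
    rw [Function.iterate_succ_apply, Function.iterate_succ_apply]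
    have := ih (toss l) (toss l') (p - 1) (toss_take l l' p h)
    rwa [Nat.sub_sub, Nat.add_comm] at this

lemma iter_append (R : ℕ) (X Y : List ℕ) :
    ∃ T, toss^[R] (X ++ Y) = T ++ toss^[R] Y ∧ T.length = X.length := by
  induction R generalizing X Y with
  | zero => exact ⟨X, rfl, rfl⟩
  | succ R ih =>
    obtain ⟨T, hT, hl⟩ := toss_append X Y
    obtain ⟨T', hT', hl'⟩ := ih T (toss Y)
    refine ⟨T', ?_, hl'.trans hl⟩
    rw [Function.iterate_succ_apply, Function.iterate_succ_apply, hT, hT']

/-- number of binary digits after one round -/
def bt (B : ℕ) : ℕ := Nat.clog 2 (2 * B)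

lemma iter_lt (R : ℕ) {l : List ℕ} {B : ℕ} (hB : 0 < B) (h : ∀ a ∈ l, a < 2 ^ B) :
    (∀ a ∈ toss^[R] l, a < 2 ^ (bt^[R] B)) ∧ 0 < bt^[R] B := by
  induction R generalizing l B with
  | zero => exact ⟨h, hB⟩
  | succ R ih =>
    rw [Function.iterate_succ_apply, Function.iterate_succ_apply]
    have h1 : 0 < bt B := by
      unfold bt
      exact Nat.clog_pos (by norm_num) (by omega)
    refine ih h1 fun a ha => ?_
    refine (toss_lt hB h a ha).trans_le ?_
    exact Nat.le_pow_clog (by norm_num) _

/-! ### local minima -/

/-- flags at the local minima, `a` = left neighbour -/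
def fl' : ℕ → List ℕ → List Bool
  | _, [] => []
  | _, [_] => [false]
  | a, b :: c :: l => decide (b < a ∧ b < c) :: fl' b (c :: l)

/-- flags at the first item and at the local minima -/
def fl : List ℕ → List Bool
  | [] => []
  | a :: l => true :: fl' a l

@[simp] lemma length_fl' (a : ℕ) (l : List ℕ) : (fl' a l).length = l.length := by
  induction l generalizing a with
  | nil => rfl
  | cons b l ih =>
    cases l with
    | nil => rfl
    | cons c l => simp [fl', ih]

@[simp] lemma length_fl (l : List ℕ) : (fl l).length = l.length := by
  cases l <;> simp [fl]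

lemma fl'_take (a : ℕ) (l l' : List ℕ) (p : ℕ) (h : l.take p = l'.take p) :
    (fl' a l).take (p - 1) = (fl' a l').take (p - 1) := by
  induction l generalizing l' p a with
  | nil =>
    cases p with
    | zero => simp
    | succ p =>
      cases l' with
      | nil => rfl
      | cons b l' => simp at h
  | cons b l ih =>
    cases p with
    | zero => simp
    | succ p =>
      cases l' with
      | nil => simp at h
      | cons b' l' =>
        simp only [List.take_succ_cons, List.cons.injEq] at h
        obtain ⟨rfl, h⟩ := h
        simp only [Nat.add_sub_cancel]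
        cases p with
        | zero => simp
        | succ p =>
          cases l with
          | nil =>
            cases l' with
            | nil => rfl
            | cons c l' => simp at h
          | cons c l =>
            cases l' with
            | nil => simp at h
            | cons c' l' =>
              have h2 := ih b (c' :: l') (p + 1) h
              simp only [List.take_succ_cons, List.cons.injEq] at h
              obtain ⟨rfl, h⟩ := h
              simp only [fl', List.take_succ_cons]
              simp only [Nat.add_sub_cancel] at h2
              rw [h2]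

lemma fl_take (l l' : List ℕ) (p : ℕ) (h : l.take p = l'.take p) :
    (fl l).take (p - 1) = (fl l').take (p - 1) := by
  cases p with
  | zero => simp
  | succ p =>
    cases l with
    | nil =>
      cases l' with
      | nil => rfl
      | cons a l' => simp at h
    | cons a l =>
      cases l' with
      | nil => simp at h
      | cons a' l' =>
        simp only [List.take_succ_cons, List.cons.injEq] at h
        obtain ⟨rfl, h⟩ := h
        simp only [fl, Nat.add_sub_cancel]
        cases p with
        | zero => simp
        | succ p =>
          have := fl'_take a l l' (p + 1) h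
          simp only [Nat.add_sub_cancel] at this
          simp [this]

lemma fl'_append (a : ℕ) (X : List ℕ) (b : ℕ) (Y : List ℕ) :
    ∃ T, fl' a (X ++ b :: Y) = T ++ fl' b Y ∧ T.length = X.length + 1 := by
  induction X generalizing a with
  | nil =>
    cases Y with
    | nil => exact ⟨[false], rfl, rfl⟩
    | cons c Y => exact ⟨[decide (b < a ∧ b < c)], rfl, rfl⟩
  | cons x X ih =>
    obtain ⟨T, hT, hl⟩ := ih x
    rw [List.cons_append]
    cases hXY : X ++ b :: Y with
    | nil => simp at hXY
    | cons c l =>
      rw [hXY] at hT
      exact ⟨decide (x < a ∧ x < c) :: T, by simp [fl', hT], by simp [hl]⟩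

lemma fl_append (X : List ℕ) (b : ℕ) (Y : List ℕ) :
    ∃ T, fl (X ++ b :: Y) = T ++ fl' b Y ∧ T.length = X.length + 1 := by
  cases X with
  | nil => exact ⟨[true], rfl, rfl⟩
  | cons x X =>
    obtain ⟨T, hT, hl⟩ := fl'_append x X b Y
    exact ⟨true :: T, by simp [fl, hT], by simp [hl]⟩

/-- no two neighbouring flags -/
lemma fl'_chain (a : ℕ) (l : List ℕ) :
    (fl' a l).IsChain (fun x y => ¬ (x = true ∧ y = true)) := by
  induction l generalizing a with
  | nil => simp [fl']
  | cons b l ih =>
    cases l with
    | nil => simp [fl']
    | cons c l =>
      have h := ih b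
      cases l with
      | nil => simp [fl']
      | cons d l =>
        simp only [fl'] at h ⊢
        rw [List.isChain_cons_cons]
        refine ⟨?_, h⟩
        simp only [decide_eq_true_eq]
        rintro ⟨⟨_, h1⟩, h2, _⟩
        omega

lemma count_chain (l : List Bool) (h : l.IsChain (fun x y => ¬ (x = true ∧ y = true))) :
    2 * l.count true ≤ l.length + 1 := by
  induction l using List.twoStepInduction with
  | nil => simp
  | singleton x => cases x <;> simp
  | cons_cons x y l ih1 ih2 =>
    have h2 := h.tail
    simp only [List.tail_cons] at h2
    have h3 := h2.tail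
    simp only [List.tail_cons] at h3
    have i1 := ih1 h3
    have i2 := ih2 y h2
    rw [List.isChain_cons_cons] at h
    cases x <;> cases y <;> simp at h i1 i2 ⊢ <;> omega

/-- number of flags in a zone -/
lemma count_infix (K : List ℕ) (P e S : List Bool) (h : fl K = P ++ (e ++ S)) :
    2 * e.count true ≤ e.length + 2 := by
  cases e with
  | nil => simp
  | cons x e =>
    have hinf : e <:+: (fl K).tail := by
      rw [h]
      cases P with
      | nil => exact ⟨[], S, by simp⟩
      | cons y P => exact ⟨P ++ [x], S, by simp⟩
    have hc : ((fl K).tail).IsChain (fun x y => ¬ (x = true ∧ y = true)) := by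
      cases K with
      | nil => simp [fl]
      | cons a K => exact fl'_chain a K
    obtain ⟨X, Y, hXY⟩ := hinf
    rw [← hXY] at hc
    have := count_chain e (List.IsChain.right_of_append (List.IsChain.left_of_append hc))
    simp only [List.count_cons, List.length_cons]
    split_ifs <;> omega

lemma count_fl' (N : ℕ) : ∀ (a : ℕ) (l : List ℕ), l.length ≤ N →
    2 * (fl' a l).count true ≤ l.length := by
  induction N using Nat.strong_induction_on with
  | _ N ih =>
    intro a l hl
    match l, hl with
    | [], _ => simp [fl']
    | [b], _ => simp [fl']
    | b :: c :: l, hl =>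
      simp only [List.length_cons] at hl
      by_cases hb : b < a ∧ b < c
      · have hd : decide (b < a ∧ b < c) = true := by simpa using hb
        match l, hl with
        | [], _ => simp [fl', hd]
        | d :: l, hl =>
          have hd2 : decide (c < b ∧ c < d) = false := by
            simp; intro h; omega
          simp only [List.length_cons] at hl
          have := ih (l.length + 1) (by omega) c (d :: l) (by simp)
          simp only [fl', hd, hd2]
          simp at this ⊢
          omega
      · have hd : decide (b < a ∧ b < c) = false := by simpa using hb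
        have := ih (l.length + 1) (by omega) b (c :: l) (by simp)
        simp only [fl', hd]
        simp at this ⊢
        omega

lemma count_fl (K : List ℕ) : 2 * (fl K).count true ≤ K.length + 1 := by
  cases K with
  | nil => simp [fl]
  | cons a K =>
    have h := count_fl' K.length a K le_rfl
    simp only [fl]
    simp
    omega

end Pool.Agent.EHD
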